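import Pool.Agent.W_MP_a3c811_h79.Lap.Rel

/-! (a2) The anisotropy theorem. -/

noncomputable section

namespace Pool.Agent.H79L

open Module

universe v w

section noncz

variable {K : Type v} [Field K] {E : Type w} [AddCommGroup E] [Module K E]
  {N f L g d : Module.End K E} {n : ℤ} {s t : ℤ → Module.End K E}
  {P D : Finset ℤ}

theorem Bi.decomp (h : Bi N f L g d n s t P D) (x : E) :
    x = ∑ w ∈ D, ∑ p ∈ P, t w (s p x) := by
  have h1 : (∑ w ∈ D, t w) x = x := by rw [h.sumt]; rfl
  have h2 : (∑ p ∈ P, s p) x = x := by rw [h.sl.sum]; rfl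
  conv_lhs => rw [← h1, ← h2]
  simp only [LinearMap.sum_apply, map_sum]
  exact Finset.sum_comm

/-- if `S (a x) y = ± S x (a y)` for homogeneous `x`, then `S (a x) y = 0` if `a y = 0` -/
theorem Bi.kill (h : Bi N f L g d n s t P D) {S : E →ₗ[K] E →ₗ[K] K} {a : Module.End K E}
    (ha : ∀ w p, ∃ c : K, ∀ x y, S (a (t w (s p x))) y = c * S (t w (s p x)) (a y)) (x y : E)
    (hy : a y = 0) : S (a x) y = 0 := by
  rw [h.decomp x]
  simp only [map_sum, LinearMap.sum_apply]
  refine Finset.sum_eq_zero fun w _ => Finset.sum_eq_zero fun p _ => ?_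
  obtain ⟨c, hc⟩ := ha w p
  rw [hc, hy, map_zero, mul_zero]

theorem tsapp (h : Bi N f L g d n s t P D) (w p : ℤ) (x : E) :
    t w (s p (t w (s p x))) = t w (s p x) := by
  have h1 : t w * s p * (t w * s p) = t w * s p := by
    rw [mul_assoc, ← mul_assoc (s p), h.st, mul_assoc (t w) (s p), h.sl.idem, ← mul_assoc,
      h.idemt]
  exact LinearMap.congr_fun h1 x

theorem Bi.f_ts (h : Bi N f L g d n s t P D) (w p : ℤ) (x : E) :
    f (t w (s p x)) = t w (s (p - 2) (f x)) := by
  have h1 : f * (t w * s p) = t w * (s (p - 2) * f) := by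
    rw [← mul_assoc, h.ft, mul_assoc, h.sl.fs]
  exact LinearMap.congr_fun h1 x

theorem Bi.g_ts (h : Bi N f L g d n s t P D) (w p : ℤ) (x : E) :
    g (t w (s p x)) = t (w - 2) (s p (g x)) := by
  have h1 : g * (t w * s p) = t (w - 2) * (s p * g) := by
    rw [← mul_assoc, h.gt, mul_assoc, h.gs]
  exact LinearMap.congr_fun h1 x

theorem Bi.d_ts (h : Bi N f L g d n s t P D) (w p : ℤ) (x : E) :
    d (t w (s p x)) = t (w + 1) (s (p + 1) (d x)) := by
  have h1 : d * (t w * s p) = t (w + 1) * (s (p + 1) * d) := by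
    rw [← mul_assoc, h.dt, mul_assoc, h.ds]
  exact LinearMap.congr_fun h1 x

theorem br_app (a b : Module.End K E) (x : E) : br a b x = a (b x) - b (a x) := rfl

theorem sq_sign (ε : ℤˣ) : ((ε : ℤ) : K) * ((ε : ℤ) : K) = 1 := by
  rcases Int.units_eq_one_or ε with rfl | rfl <;> simp

/-- the signs of the four components -/
theorem Bi.adj (h : Bi N f L g d n s t P D) {S : E →ₗ[K] E →ₗ[K] K}
    (hS : Adapted f g d s t S) : ∃ ε : ℤ → ℤ → K, (∀ w p, ε (w - 2) p = ε w p ∧ ε w (p - 2) = ε w p) ∧
      ∃ α β : K,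
      (∀ w p x y, S (d (t w (s p x))) y = ε w p * S (t w (s p x)) (d y)) ∧
      (∀ w p x y, S (br f d (t w (s p x))) y = (-(α * ε w p)) * S (t w (s p x)) (br f d y)) ∧
      (∀ w p x y, S (br g d (t w (s p x))) y = (-(β * ε w p)) * S (t w (s p x)) (br g d y)) ∧
      (∀ w p x y, S (br f (br g d) (t w (s p x))) y =
        (α * β * ε w p) * S (t w (s p x)) (br f (br g d) y)) := by
  obtain ⟨α, hα⟩ := hS.f
  obtain ⟨β, hβ⟩ := hS.g
  obtain ⟨ε, hε, hd⟩ := hS.d
  have p1 : ∀ w p, ε (w - 2) p = ε w p := fun w p => by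
    have := (hε (w - 2) p).1
    rw [sub_add_cancel] at this
    exact this.symm
  have p2 : ∀ w p, ε w (p - 2) = ε w p := fun w p => by
    have := (hε w (p - 2)).2
    rw [sub_add_cancel] at this
    exact this.symm
  have e1 : ∀ w p x y, S (br f d (t w (s p x))) y =
      (-(((α : ℤ) : K) * ((ε w p : ℤ) : K))) * S (t w (s p x)) (br f d y) := by
    intro w p x y
    rw [br_app, map_sub, LinearMap.sub_apply, hα, hd, h.f_ts, hd, ← h.f_ts, hα, p2, br_app,
      map_sub]
    ring
  have e2 : ∀ w p x y, S (br g d (t w (s p x))) y =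
      (-(((β : ℤ) : K) * ((ε w p : ℤ) : K))) * S (t w (s p x)) (br g d y) := by
    intro w p x y
    rw [br_app, map_sub, LinearMap.sub_apply, hβ, hd, h.g_ts, hd, ← h.g_ts, hβ, p1, br_app,
      map_sub]
    ring
  refine ⟨fun w p => ((ε w p : ℤ) : K), fun w p => ⟨by simp only [p1], by simp only [p2]⟩,
    ((α : ℤ) : K), ((β : ℤ) : K), hd, e1, e2, ?_⟩
  intro w p x y
  rw [br_app f, map_sub, LinearMap.sub_apply, hα, e2, h.f_ts, e2, ← h.f_ts, hα, p2, br_app f,
    map_sub]
  ring

end noncz

variable {K : Type v} [Field K] [CharZero K] {E : Type w} [AddCommGroup E] [Module K E]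
  [FiniteDimensional K E] {N f L g d : Module.End K E} {n : ℤ} {s t : ℤ → Module.End K E}
  {P D : Finset ℤ}

omit [CharZero K] [FiniteDimensional K E] in
theorem Sl.sh (h : Sl N f s P) (q : ℤ) : s q * br N f = (q : K) • s q := by
  refine h.ext_sum fun p => ?_
  rw [mul_assoc, h.h, mul_smul_comm, smul_mul_assoc]
  by_cases hpq : q = p
  · rw [hpq]
  · rw [h.orth q p hpq, smul_zero, smul_zero]

omit [FiniteDimensional K E] in
/-- from the weight to the projector -/
theorem Sl.proj_of (h : Sl N f s P) {p : ℤ} {x : E} (hx : br N f x = (p : K) • x) : s p x = x := by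
  have key : ∀ q, s q (x - s p x) = 0 := by
    intro q
    rw [map_sub]
    by_cases hpq : q = p
    · subst hpq
      have := LinearMap.congr_fun (h.idem q) x
      rw [Module.End.mul_apply] at this
      rw [this, sub_self]
    · have h1 : s q (s p x) = 0 := LinearMap.congr_fun (h.orth q p hpq) x
      have h2 : s q (br N f x) = (q : K) • s q x := LinearMap.congr_fun (h.sh q) x
      rw [hx, map_smul, ← sub_eq_zero, ← sub_smul, smul_eq_zero] at h2
      have h3 : (p : K) - (q : K) ≠ 0 := by
        intro h0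
        exact hpq (Int.cast_injective (sub_eq_zero.1 h0)).symm
      rw [h1, h2.resolve_left h3, sub_zero]
  have h1 : (∑ q ∈ P, s q) (x - s p x) = x - s p x := by rw [h.sum]; rfl
  rw [LinearMap.sum_apply, Finset.sum_eq_zero fun q _ => key q] at h1
  exact (sub_eq_zero.1 h1.symm).symm

theorem Bi.setup (h : Bi N f L g d n s t P D) {S : E →ₗ[K] E →ₗ[K] K}
    (hS : Adapted f g d s t S) (B : Subring (Module.End K E)) (hN : N ∈ B) (hf : f ∈ B)
    (hL : L ∈ B) (hg : g ∈ B) (hd : d ∈ B) (hB : NoIso B N f L g n s t S) :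
    H62W.Setup N f (br N f) L g (br L g) d (fun x y => S x y) B := by
  obtain ⟨ε, hε, α, β, a0, a1, a2, a3⟩ := h.adj hS
  exact {
    ef1 := rfl
    ef2 := rfl
    he1 := h.sl.hN
    hf1 := h.sl.hf
    he2 := h.sl2.hN
    hf2 := h.sl2.hf
    ee := h.NL
    ef := h.Ng
    fe := h.fL
    ff := h.fg
    ed1 := h.Nd
    ed2 := h.Ld
    hd1 := h.hd1
    hd2 := h.hd2
    dd := h.dd
    sp1 := h.sl.list
    sp2 := h.sl2.list
    add_left := fun x x' y => by rw [map_add, LinearMap.add_apply]
    add_right := fun x y y' => by rw [map_add]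
    ca := by
      intro i x y hy
      refine h.kill (a := H62W.comp f g d i) ?_ x y hy
      intro w p
      fin_cases i
      · exact ⟨_, a0 w p⟩
      · exact ⟨_, a1 w p⟩
      · exact ⟨_, a2 w p⟩
      · exact ⟨_, a3 w p⟩
    la := by
      intro x y hy
      refine h.kill (a := lap f g d) ?_ x y hy
      intro w p
      refine ⟨ε (w + 1) (p + 1) * (α * β * ε w p), fun x y => ?_⟩
      have e1 : ε (w - 1) (p - 1) = ε (w + 1) (p + 1) := by
        have h1 := (hε (w + 1) (p + 1)).1
        have h2 := (hε (w - 1) (p + 1)).2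
        rw [show w + 1 - 2 = w - 1 by ring] at h1
        rw [show p + 1 - 2 = p - 1 by ring] at h2
        rw [h2, h1]
      have hl : ∀ z, lap f g d z = d (br f (br g d) z) + br f (br g d) (d z) := fun z => rfl
      have hts : br f (br g d) (t w (s p x)) =
          t (w - 1) (s (p - 1) (br f (br g d) x)) := by
        have hb : br f (br g d) * (t w * s p) = t (w - 1) * (s (p - 1) * br f (br g d)) := by
          have hd' : d * (t w * s p) = t (w + 1) * (s (p + 1) * d) := by
            rw [← mul_assoc, h.dt, mul_assoc, h.ds]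
          have hg' : ∀ w p, g * (t w * s p) = t (w - 2) * (s p * g) := fun w p => by
            rw [← mul_assoc, h.gt, mul_assoc, h.gs]
          have hf' : ∀ w p, f * (t w * s p) = t w * (s (p - 2) * f) := fun w p => by
            rw [← mul_assoc, h.ft, mul_assoc, h.sl.fs]
          have key : ∀ {a b : Module.End K E} {w p w1 p1 w2 p2 : ℤ},
              a * (t w * s p) = t w1 * (s p1 * a) → b * (t w1 * s p1) = t w2 * (s p2 * b) →
              b * a * (t w * s p) = t w2 * (s p2 * (b * a)) := by
            intro a b w p w1 p1 w2 p2 h1 h2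
            rw [mul_assoc b a, h1, ← mul_assoc (t w1), ← mul_assoc b, h2, mul_assoc, mul_assoc]
          have c1 : br g d * (t w * s p) = t (w - 1) * (s (p + 1) * br g d) := by
            unfold br
            rw [sub_mul, key hd' (hg' _ _), mul_sub, mul_sub,
              key (hg' w p) (show d * (t (w - 2) * s p) = t (w - 2 + 1) * (s (p + 1) * d) by
                rw [← mul_assoc, h.dt, mul_assoc, h.ds]),
              show w + 1 - 2 = w - 1 by ring, show w - 2 + 1 = w - 1 by ring]
          have c2 : br g d * (t w * s (p - 2)) = t (w - 1) * (s (p - 1) * br g d) := by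
            unfold br
            rw [sub_mul, key (show d * (t w * s (p - 2)) = t (w + 1) * (s (p - 2 + 1) * d) by
                rw [← mul_assoc, h.dt, mul_assoc, h.ds]) (hg' _ _), mul_sub, mul_sub,
              key (hg' w (p - 2)) (show d * (t (w - 2) * s (p - 2)) =
                t (w - 2 + 1) * (s (p - 2 + 1) * d) by
                rw [← mul_assoc, h.dt, mul_assoc, h.ds]),
              show w + 1 - 2 = w - 1 by ring, show w - 2 + 1 = w - 1 by ring,
              show p - 2 + 1 = p - 1 by ring]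
          have e1 := key c1 (hf' _ _)
          have e2 := key (hf' w p) c2
          rw [show p + 1 - 2 = p - 1 by ring] at e1
          have e3 : br f (br g d) = f * br g d - br g d * f := rfl
          rw [e3, sub_mul, mul_sub (s (p - 1)), mul_sub (t (w - 1)), e1, e2]
        exact LinearMap.congr_fun hb x
      rw [hl, map_add, LinearMap.add_apply, hts, a0, ← hts, a3, h.d_ts, a3, ← h.d_ts, a0, e1, hl,
        map_add]
      ring
    me1 := hN
    mf1 := hf
    me2 := hL
    mf2 := hg
    md := hd
    aniso := by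
      intro i j u hu hx hxy
      refine hB u hu i j ?_ ?_ ?_ hxy
      · intro x
        obtain ⟨-, -, h1, h2⟩ := hx x
        have e1 : s (-(i : ℤ)) (u x) = u x := h.sl.proj_of (by rw [h1]; push_cast; rfl)
        have e2 : (fun p => t (p + n)) (-(j : ℤ)) (u x) = u x :=
          h.sl2.proj_of (by rw [h2]; push_cast; rfl)
        rw [e1]
        have : n - (j : ℤ) = -(j : ℤ) + n := by ring
        rw [this]
        exact e2
      · ext x; exact (hx x).1
      · ext x; exact (hx x).2.1 }

set_option linter.unusedVariables false in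
/-- The anisotropy theorem: on the image of an element `γ` of the ring `B` which commutes with the
two `sl2`-triples and with the Laplacian and on which the Laplacian is nilpotent, the differential
is zero. -/
theorem Bi.aniso (h : Bi N f L g d n s t P D) {S : E →ₗ[K] E →ₗ[K] K}
    (hS : Adapted f g d s t S) (B : Subring (Module.End K E)) (hN : N ∈ B) (hf : f ∈ B)
    (hL : L ∈ B) (hg : g ∈ B) (hd : d ∈ B) (hB : NoIso B N f L g n s t S) {γ : Module.End K E}
    (hγ : γ ∈ B) (γN : γ * N = N * γ) (γf : γ * f = f * γ) (γL : γ * L = L * γ)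
    (γg : γ * g = g * γ) (γΔ : γ * lap f g d = lap f g d * γ) {m : ℕ}
    (hm : lap f g d ^ m * γ = 0) : d * γ = 0 :=
  (h.setup hS B hN hf hL hg hd hB).d_mul hγ ⟨m, hm⟩

/-- The same without commutation hypotheses. -/
theorem Bi.aniso' (h : Bi N f L g d n s t P D) {S : E →ₗ[K] E →ₗ[K] K}
    (hS : Adapted f g d s t S) (B : Subring (Module.End K E)) (hN : N ∈ B) (hf : f ∈ B)
    (hL : L ∈ B) (hg : g ∈ B) (hd : d ∈ B) (hB : NoIso B N f L g n s t S) {γ : Module.End K E}
    (hγ : γ ∈ B) {m : ℕ} (hm : lap f g d ^ m * γ = 0) : d * γ = 0 :=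
  (h.setup hS B hN hf hL hg hd hB).d_mul hγ ⟨m, hm⟩

end Pool.Agent.H79L
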