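import Pool.Agent.W_a3c811_h62.StDefs

/-! Definitions for the statement: Lefschetz operators on a complex of correspondences, the
Laplacian, anisotropy. -/

noncomputable section

namespace Pool.Agent.H79L

open Polynomial Pool.Agent.WeilH_h6 Pool.Agent.WeilH_h6.VarClass Pool.Agent.H62D Pool.Agent.H62A

universe u v w

section linear

variable {K : Type v} [Field K] {E : Type w} [AddCommGroup E] [Module K E]

/-- The commutator of two endomorphisms. -/
def bracket (a b : E →ₗ[K] E) : E →ₗ[K] E := a ∘ₗ b - b ∘ₗ a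

/-- The Laplacian `d d' + d' d` of `d`, where `d' = [f, [g, d]]`. -/
def laplacianOf (f g d : E →ₗ[K] E) : E →ₗ[K] E :=
  d ∘ₗ bracket f (bracket g d) + bracket f (bracket g d) ∘ₗ d

/-- `T` is self-adjoint up to a sign for the bilinear form `S`. -/
def SelfAdj (S : E →ₗ[K] E →ₗ[K] K) (T : E →ₗ[K] E) : Prop :=
  (∀ x y, S (T x) y = S x (T y)) ∨ ∀ x y, S (T x) y = -S x (T y)

/-- The endomorphisms obtained from `d, N, L, f, g` by sums, differences and compositions. -/
inductive Word (d N L f g : E →ₗ[K] E) : (E →ₗ[K] E) → Prop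
  | d : Word d N L f g d
  | N : Word d N L f g N
  | L : Word d N L f g L
  | f : Word d N L f g f
  | g : Word d N L f g g
  | id : Word d N L f g LinearMap.id
  | sub (a b : E →ₗ[K] E) : Word d N L f g a → Word d N L f g b → Word d N L f g (a - b)
  | comp (a b : E →ₗ[K] E) : Word d N L f g a → Word d N L f g b → Word d N L f g (a ∘ₗ b)

end linear

variable {k : Type u} [Field k] {𝒱 : VarClass k} {I : Type} {K : I → Type v} [∀ l, Field (K l)]
  {W : ∀ l, Weil.{u, v, w} 𝒱 (K l)}

/-- Lefschetz operators on a complex of correspondences (the weight spectral sequence of a variety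
of dimension `n`): the monodromy operator `N`, the operator `L` of a hyperplane section, and the
operators `f`, `g` of the representations of `sl2` they define, all given by correspondences between
the strata.  For `g` this is the standard conjecture of Lefschetz type for the strata. -/
structure Lefschetz (C : MComplex W) where
  /-- the dimension -/
  n : ℤ
  /-- the monodromy operator -/
  N : ∀ l, TEnd (W l) C.Y
  /-- the Lefschetz operator -/
  L : ∀ l, TEnd (W l) C.Y
  /-- the dual of the monodromy operator -/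
  f : ∀ l, TEnd (W l) C.Y
  /-- the dual of the Lefschetz operator -/
  g : ∀ l, TEnd (W l) C.Y
  motivic_N : Motivic W C.Y N
  motivic_L : Motivic W C.Y L
  motivic_f : Motivic W C.Y f
  motivic_g : Motivic W C.Y g
  bidegree_N : ∀ l, HasBidegree (W l) C.Y C.pos C.tw 0 2 (N l)
  bidegree_L : ∀ l, HasBidegree (W l) C.Y C.pos C.tw 2 0 (L l)
  bidegree_f : ∀ l, HasBidegree (W l) C.Y C.pos C.tw 0 (-2) (f l)
  bidegree_g : ∀ l, HasBidegree (W l) C.Y C.pos C.tw (-2) 0 (g l)
  triple_N : ∀ l p, ∀ x ∈ posPart (W l) C.Y C.pos p, bracket (N l) (f l) x = (p : K l) • x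
  triple_L : ∀ l w, ∀ x ∈ degPart (W l) C.Y C.pos C.tw w,
    bracket (L l) (g l) x = ((w - n : ℤ) : K l) • x
  comm_NL : ∀ l, Commutes (N l) (L l)
  comm_Ng : ∀ l, Commutes (N l) (g l)
  comm_fL : ∀ l, Commutes (f l) (L l)
  comm_fg : ∀ l, Commutes (f l) (g l)
  comm_Nd : ∀ l, Commutes (N l) (C.d l)
  comm_Ld : ∀ l, Commutes (L l) (C.d l)

namespace Lefschetz

variable {C : MComplex W} (T : Lefschetz C)

/-- The Laplacian `Δ = d [f, [g, d]] + [f, [g, d]] d` of the complex. -/
def lap (l : I) : TEnd (W l) C.Y := laplacianOf (T.f l) (T.g l) (C.d l)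

/-- The primitive part of degree `n - j` and position `-i`: the vectors of this degree and position
killed by `f` and `g`. -/
def IsPrim (l : I) (i j : ℕ) (x : Tot (W l) C.Y) : Prop :=
  x ∈ degPart (W l) C.Y C.pos C.tw (T.n - j) ∧ x ∈ posPart (W l) C.Y C.pos (-i) ∧
    T.f l x = 0 ∧ T.g l x = 0

/-- The bilinear form `S` is a polarisation up to signs: `N, L, f, g` are self-adjoint up to a sign,
`d` is self-adjoint up to a sign which depends on the parities of degree and position. -/
def IsForm (l : I) (S : Tot (W l) C.Y →ₗ[K l] Tot (W l) C.Y →ₗ[K l] K l) : Prop :=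
  SelfAdj S (T.N l) ∧ SelfAdj S (T.L l) ∧ SelfAdj S (T.f l) ∧ SelfAdj S (T.g l) ∧
    ∃ ε : ℤ → ℤ → ℤˣ, (∀ w p, ε (w + 2) p = ε w p ∧ ε w (p + 2) = ε w p) ∧
      ∀ w p, ∀ x ∈ degPart (W l) C.Y C.pos C.tw w, x ∈ posPart (W l) C.Y C.pos p →
        ∀ y, S (C.d l x) y = ((ε w p : ℤ) : K l) * S x (C.d l y)

/-- The complex is anisotropic in the theory `l`: for some form `S` as above, no nonzero
endomorphism `u` obtained from `d, N, L, f, g` has image in a primitive part such that
`S (x, N ^ i L ^ j y) = 0` for all `x`, `y` in the image of `u`. -/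
def Anisotropic (l : I) : Prop :=
  ∃ S : Tot (W l) C.Y →ₗ[K l] Tot (W l) C.Y →ₗ[K l] K l, T.IsForm l S ∧
    ∀ u, Word (C.d l) (T.N l) (T.L l) (T.f l) (T.g l) u → ∀ i j : ℕ,
      (∀ x, T.IsPrim l i j (u x)) →
        (∀ x y, S (u x) ((T.N l ^ i) ((T.L l ^ j) (u y))) = 0) → ∀ x, u x = 0

/-- The realisation `R` has the monodromy operator `N`, and the projector of the motive commutes
with it on the cohomology of the complex. -/
def Compat (R : Realisation C) : Prop :=
  R.N = T.N ∧ ∀ l x, C.d l x = 0 →
    R.e l (T.N l x) - T.N l (R.e l x) ∈ LinearMap.range (C.d l)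

end Lefschetz

end Pool.Agent.H79L
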