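import Mathlib

/-! Two commuting `sl2`-triples and a differential: definitions (one theory). -/

noncomputable section

namespace Pool.Agent.H79L

open Module

universe v w

variable {K : Type v} [Field K] {E : Type w} [AddCommGroup E] [Module K E]

/-- The commutator. -/
def br (a b : Module.End K E) : Module.End K E := a * b - b * a

/-- The Laplacian `Δ = d d'' + d'' d` of the differential `d`, where `d'' = [f, [g, d]]`. -/
def lap (f g d : Module.End K E) : Module.End K E :=
  d * br f (br g d) + br f (br g d) * d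

/-- One `sl2`-triple `(N, [N, f], f)` on a space graded by the projectors `s p`, such that
`[N, f]` is `p` on the part of position `p`. -/
structure Sl (N f : Module.End K E) (s : ℤ → Module.End K E) (P : Finset ℤ) : Prop where
  sum : ∑ p ∈ P, s p = 1
  idem : ∀ p, s p * s p = s p
  orth : ∀ p p', p ≠ p' → s p * s p' = 0
  h : ∀ p, br N f * s p = (p : K) • s p
  Ns : ∀ p, N * s p = s (p + 2) * N
  fs : ∀ p, f * s p = s (p - 2) * f

/-- Two commuting `sl2`-triples `(N, [N, f], f)` and `(L, [L, g], g)` on a bigraded space and a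
differential `d` which commutes with `N` and `L`.  The projector onto the part of position `p` is
`s p`, the projector onto the part of degree `w` is `t w`; `[N, f] = p`, `[L, g] = w - n`. -/
structure Bi (N f L g d : Module.End K E) (n : ℤ) (s t : ℤ → Module.End K E) (P D : Finset ℤ) :
    Prop where
  sl : Sl N f s P
  sumt : ∑ w ∈ D, t w = 1
  idemt : ∀ w, t w * t w = t w
  ortht : ∀ w w', w ≠ w' → t w * t w' = 0
  st : ∀ w p, s p * t w = t w * s p
  ht : ∀ w, br L g * t w = ((w - n : ℤ) : K) • t w
  Lt : ∀ w, L * t w = t (w + 2) * L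
  gt : ∀ w, g * t w = t (w - 2) * g
  Ls : ∀ p, L * s p = s p * L
  gs : ∀ p, g * s p = s p * g
  Nt : ∀ w, N * t w = t w * N
  ft : ∀ w, f * t w = t w * f
  NL : N * L = L * N
  Ng : N * g = g * N
  fL : f * L = L * f
  fg : f * g = g * f
  ds : ∀ p, d * s p = s (p + 1) * d
  dt : ∀ w, d * t w = t (w + 1) * d
  dd : d * d = 0
  Nd : N * d = d * N
  Ld : L * d = d * L

/-- The bilinear form `S` is adapted to `f`, `g`, `d`: they are self-adjoint up to signs; the sign
of `d` may depend on the parities of degree and position. -/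
structure Adapted (f g d : Module.End K E) (s t : ℤ → Module.End K E)
    (S : E →ₗ[K] E →ₗ[K] K) : Prop where
  f : ∃ ε : ℤˣ, ∀ x y, S (f x) y = ((ε : ℤ) : K) * S x (f y)
  g : ∃ ε : ℤˣ, ∀ x y, S (g x) y = ((ε : ℤ) : K) * S x (g y)
  d : ∃ ε : ℤ → ℤ → ℤˣ, (∀ w p, ε (w + 2) p = ε w p ∧ ε w (p + 2) = ε w p) ∧
    ∀ w p x y, S (d (t w (s p x))) y = ((ε w p : ℤ) : K) * S (t w (s p x)) (d y)

/-- No nonzero element `u` of the ring `B` has image in a primitive part (the vectors of degree
`n - j` and position `-i` killed by `f` and `g`) such that `S (x, N ^ i L ^ j y) = 0` for all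
`x, y` in the image of `u`. -/
def NoIso (B : Subring (Module.End K E)) (N f L g : Module.End K E) (n : ℤ)
    (s t : ℤ → Module.End K E) (S : E →ₗ[K] E →ₗ[K] K) : Prop :=
  ∀ u ∈ B, ∀ i j : ℕ, (∀ x, t (n - j) (s (-i) (u x)) = u x) → f * u = 0 → g * u = 0 →
    (∀ x y, S (u x) ((N ^ i) ((L ^ j) (u y))) = 0) → u = 0

end Pool.Agent.H79L
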