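import Pool.Agent.W_MP_a3c811_h79.Lap.Fam
import Pool.Agent.W_MP_a3c811_h79.Lap.Aniso

/-! Anisotropy in one theory implies that the differential vanishes on the kernel part of the
Laplacian. -/

noncomputable section

namespace Pool.Agent.H79L

open Polynomial Module Pool.Agent.WeilH_h6 Pool.Agent.WeilH_h6.VarClass Pool.Agent.H62D
  Pool.Agent.H62A

universe u v w

section linear

variable {K : Type v} [Field K] {E : Type w} [AddCommGroup E] [Module K E]

theorem aeval_mem_subring {R : Type w} [Ring R] (B : Subring R) {x : R} (hx : x ∈ B) (q : ℤ[X]) :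
    aeval x q ∈ B := by
  induction q using Polynomial.induction_on' with
  | add p q hp hq => rw [map_add]; exact add_mem hp hq
  | monomial n a =>
    rw [aeval_monomial]
    refine mul_mem ?_ (pow_mem hx n)
    rw [eq_intCast]
    exact intCast_mem B a

theorem word_of_mem {d N L f g : Module.End K E} {u : Module.End K E}
    (hu : u ∈ Subring.closure ({d, N, L, f, g} : Set (Module.End K E))) : Word d N L f g u := by
  have h0 : Word d N L f g (0 : E →ₗ[K] E) := by
    have := Word.sub (d := d) (N := N) (L := L) (f := f) (g := g) _ _ Word.id Word.id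
    rwa [sub_self] at this
  induction hu using Subring.closure_induction with
  | mem x hx =>
    simp only [Set.mem_insert_iff, Set.mem_singleton_iff] at hx
    rcases hx with rfl | rfl | rfl | rfl | rfl
    · exact Word.d
    · exact Word.N
    · exact Word.L
    · exact Word.f
    · exact Word.g
  | zero => exact h0
  | one => exact Word.id
  | add a b _ _ ha hb =>
    have h1 := Word.sub _ _ h0 hb
    have h2 := Word.sub _ _ ha h1
    have h3 : a - (0 - b) = a + b := by abel
    rw [h3] at h2
    exact h2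
  | neg a _ ha =>
    have h1 := Word.sub _ _ h0 ha
    rw [zero_sub] at h1
    exact h1
  | mul a b _ _ ha hb => exact Word.comp _ _ ha hb

theorem SelfAdj.exists_sign {S : E →ₗ[K] E →ₗ[K] K} {T : Module.End K E} (h : SelfAdj S T) :
    ∃ ε : ℤˣ, ∀ x y, S (T x) y = ((ε : ℤ) : K) * S x (T y) := by
  rcases h with h | h
  · exact ⟨1, fun x y => by simpa using h x y⟩
  · exact ⟨-1, fun x y => by simpa using h x y⟩

end linear

variable {k : Type u} [Field k] {𝒱 : VarClass k} {I : Type} {K : I → Type v} [∀ l, Field (K l)]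
  [∀ l, CharZero (K l)] {W : ∀ l, Weil.{u, v, w} 𝒱 (K l)} {C : MComplex W}
  {T : Lefschetz C} {hW : Compatible W} {χ p q : ℚ[X]}

/-- The differential vanishes on the kernel part of the Laplacian if there is no isotropic element
in some subring containing the operators. -/
theorem zero_of_noIso (F : Fitting (T.lapA hW) (aeval (T.lapA hW) p) (aeval (T.lapA hW) q))
    {l : I} {S : Tot (W l) C.Y →ₗ[K l] Tot (W l) C.Y →ₗ[K l] K l}
    (hS : Adapted (K := K l) (E := Tot (W l) C.Y) (T.f l) (T.g l) (C.d l)
      (posProj (W l) C.Y C.pos) (degProj (W l) C.Y C.pos C.tw) S)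
    (B : Subring (Module.End (K l) (Tot (W l) C.Y))) (md : C.d l ∈ B) (mN : T.N l ∈ B)
    (mL : T.L l ∈ B) (mf : T.f l ∈ B) (mg : T.g l ∈ B)
    (hB : NoIso B (T.N l) (T.f l) (T.L l) (T.g l) T.n (posProj (W l) C.Y C.pos)
      (degProj (W l) C.Y C.pos C.tw) S) :
    (C.d l : Module.End (K l) (Tot (W l) C.Y)) * MA.val (aeval (T.lapA hW) p) l = 0 := by
  obtain ⟨D, hD⟩ := T.bi l
  obtain ⟨c, hc, r, hr⟩ := exists_int (T.lapA hW) p
  have Fl : Fitting (T.lap l : Module.End (K l) (Tot (W l) C.Y))
      (MA.val (aeval (T.lapA hW) p) l) (MA.val (aeval (T.lapA hW) q) l) := F.map (ev hW C.Y l)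
  have mΔ : (T.lap l : Module.End (K l) (Tot (W l) C.Y)) ∈ B := by
    have m1 := sub_mem (mul_mem mg md) (mul_mem md mg)
    have m2 := sub_mem (mul_mem mf m1) (mul_mem m1 mf)
    exact add_mem (mul_mem md m2) (mul_mem m2 md)
  have eγ : aeval (T.lap l : Module.End (K l) (Tot (W l) C.Y)) r =
      (c : Module.End (K l) (Tot (W l) C.Y)) * MA.val (aeval (T.lapA hW) p) l := by
    have h1 := congrArg (ev hW C.Y l) hr
    rw [map_mul, map_intCast] at h1
    have h2 := Polynomial.aeval_algHom_apply (ev hW C.Y l).toIntAlgHom (T.lapA hW) r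
    exact h2.trans h1
  set γ : Module.End (K l) (Tot (W l) C.Y) := aeval (T.lap l) r with hγ
  have mγ : γ ∈ B := aeval_mem_subring B mΔ r
  have comm : ∀ x : MA hW C.Y, x * T.lapA hW = T.lapA hW * x →
      γ * MA.val x l = MA.val x l * γ := by
    intro x hx
    have h1 : MA.val x l * MA.val (aeval (T.lapA hW) p) l =
        MA.val (aeval (T.lapA hW) p) l * MA.val x l :=
      congrArg (fun x => MA.val x l) (commute_aeval hx p)
    rw [eγ, mul_assoc, ← h1, ← mul_assoc, ← mul_assoc, Int.cast_comm]
  obtain ⟨m, hm⟩ := Fl.nil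
  have key := hD.aniso hS B mN mf mL mg md hB
    mγ (comm (T.nA hW) (T.lap_comm_N hW)) (comm (T.fA hW) (T.lap_comm_f hW))
    (comm (T.lA hW) (T.lap_comm_L hW)) (comm (T.gA hW) (T.lap_comm_g hW))
    (comm (T.lapA hW) rfl) (m := m) (by
      change (T.lap l : Module.End (K l) (Tot (W l) C.Y)) ^ m * γ = 0
      rw [eγ, ← mul_assoc, ← Int.cast_comm, mul_assoc, hm, mul_zero])
  rw [eγ, ← mul_assoc, ← Int.cast_comm, mul_assoc] at key
  refine LinearMap.ext fun x => ?_
  have h5 := LinearMap.congr_fun key x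
  rw [Module.End.mul_apply, Module.End.intCast_apply, LinearMap.zero_apply] at h5
  rw [← Int.cast_smul_eq_zsmul (K l)] at h5
  rcases smul_eq_zero.1 h5 with h6 | h6
  · exact absurd (Int.cast_eq_zero.1 h6) hc
  · exact h6

theorem zero_of_aniso (F : Fitting (T.lapA hW) (aeval (T.lapA hW) p) (aeval (T.lapA hW) q))
    {l : I} (ha : T.Anisotropic l) : (C.d l : Module.End (K l) (Tot (W l) C.Y)) *
      MA.val (aeval (T.lapA hW) p) l = 0 := by
  obtain ⟨S, ⟨-, -, hSf, hSg, ε, hε, hSd⟩, hS⟩ := ha
  set B : Subring (Module.End (K l) (Tot (W l) C.Y)) :=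
    Subring.closure {C.d l, T.N l, T.L l, T.f l, T.g l} with hB
  have md : C.d l ∈ B := Subring.subset_closure (by simp)
  have mN : T.N l ∈ B := Subring.subset_closure (by simp)
  have mL : T.L l ∈ B := Subring.subset_closure (by simp)
  have mf : T.f l ∈ B := Subring.subset_closure (by simp)
  have mg : T.g l ∈ B := Subring.subset_closure (by simp)
  refine zero_of_noIso F (S := S) ⟨hSf.exists_sign, hSg.exists_sign, ε, hε, fun w p x y => by
      have h2 : degProj (W l) C.Y C.pos C.tw w (posProj (W l) C.Y C.pos p x) ∈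
          posPart (W l) C.Y C.pos p := by
        have h3 := LinearMap.congr_fun (degProj_comm_posProj (W l) C.Y C.pos C.tw w p) x
        rw [LinearMap.comp_apply, LinearMap.comp_apply] at h3
        rw [h3]
        exact posProj_mem _ _ _ _ _
      exact hSd w p _ (degProj_mem _ _ _ _ _ _) h2 y⟩ B md mN mL mf mg ?_
  intro u hu i j h1 h2 h3 h4
  refine LinearMap.ext fun x => hS u (word_of_mem hu) i j (fun x => ⟨?_, ?_, ?_, ?_⟩) h4 x
  · rw [← h1 x]
    exact degProj_mem _ _ _ _ _ _
  · rw [← h1 x]
    have h3 := LinearMap.congr_fun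
      (degProj_comm_posProj (W l) C.Y C.pos C.tw (T.n - j) (-i)) (u x)
    rw [LinearMap.comp_apply, LinearMap.comp_apply] at h3
    rw [h3]
    exact posProj_mem _ _ _ _ _
  · exact LinearMap.congr_fun h2 x
  · exact LinearMap.congr_fun h3 x

end Pool.Agent.H79L
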