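import Pool.Agent.W_a3c811_h62.Final
import Pool.Agent.W_MP_a3c811_h79.Lap.StLap
import Pool.Agent.W_MP_a3c811_h79.Lap.Abs

/-! From the definitions of the statement to the abstract ones. -/

noncomputable section

namespace Pool.Agent.H79L

open Polynomial Module Pool.Agent.WeilH_h6 Pool.Agent.WeilH_h6.VarClass Pool.Agent.H62D
  Pool.Agent.H62A

universe u v w

variable {k : Type u} [Field k] {𝒱 : VarClass k} {I : Type} {K : I → Type v} [∀ l, Field (K l)]
  [∀ l, CharZero (K l)] {W : ∀ l, Weil.{u, v, w} 𝒱 (K l)} {C : MComplex W}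

omit [∀ l, CharZero (K l)] in
lemma degProj_idem (l : I) (w : ℤ) : degProj (W l) C.Y C.pos C.tw w ∘ₗ degProj (W l) C.Y C.pos C.tw w =
    degProj (W l) C.Y C.pos C.tw w :=
  LinearMap.ext fun x => degProj_of_mem _ _ _ _ (degProj_mem _ _ _ _ _ _)

omit [∀ l, CharZero (K l)] in
lemma posProj_idem (l : I) (p : ℤ) : posProj (W l) C.Y C.pos p ∘ₗ posProj (W l) C.Y C.pos p =
    posProj (W l) C.Y C.pos p :=
  LinearMap.ext fun x => posProj_of_mem _ _ _ (posProj_mem _ _ _ _ _)

omit [∀ l, CharZero (K l)] in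
theorem Lefschetz.bi (T : Lefschetz C) (l : I) : ∃ D : Finset ℤ,
    Bi (K := K l) (E := Tot (W l) C.Y) (T.N l) (T.f l) (T.L l) (T.g l) (C.d l) T.n
      (posProj (W l) C.Y C.pos) (degProj (W l) C.Y C.pos C.tw) (Finset.univ.image C.pos) D := by
  obtain ⟨D, hD⟩ := exists_sum_degProj (W l) C.Y C.pos C.tw
  have cp := fun {s t : ℤ} {S : TEnd (W l) C.Y} (h : HasBidegree (W l) C.Y C.pos C.tw s t S) =>
    comp_posProj (W l) C.Y C.pos C.tw h
  have cd := fun {s t : ℤ} {S : TEnd (W l) C.Y} (h : HasBidegree (W l) C.Y C.pos C.tw s t S) =>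
    comp_degProj (W l) C.Y C.pos C.tw h
  refine ⟨D, ⟨⟨sum_posProj (W l) C.Y C.pos, fun p => posProj_idem l p,
    fun p p' h => posProj_orth (W l) C.Y C.pos h, fun p => ?_, fun p => cp (T.bidegree_N l) p,
    fun p => cp (T.bidegree_f l) p⟩, hD, fun w => degProj_idem l w, fun w w' h => ?_,
    fun w p => (degProj_comm_posProj (W l) C.Y C.pos C.tw w p).symm, fun w => ?_,
    fun w => cd (T.bidegree_L l) w, fun w => cd (T.bidegree_g l) w, fun p => ?_, fun p => ?_,
    fun w => ?_, fun w => ?_, LinearMap.ext (T.comm_NL l), LinearMap.ext (T.comm_Ng l),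
    LinearMap.ext (T.comm_fL l), LinearMap.ext (T.comm_fg l), fun p => cp (C.d_bidegree l) p,
    fun w => cd (C.d_bidegree l) w, LinearMap.ext (C.d_sq l), LinearMap.ext (T.comm_Nd l),
    LinearMap.ext (T.comm_Ld l)⟩⟩
  · exact LinearMap.ext fun x => T.triple_N l p _ (posProj_mem _ _ _ _ _)
  · refine LinearMap.ext fun x => ?_
    exact Proj_degProj_of_mem_ne _ _ _ _ (Ne.symm h) (degProj_mem _ _ _ _ _ _)
  · exact LinearMap.ext fun x => T.triple_L l w _ (degProj_mem _ _ _ _ _ _)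
  · have := cp (T.bidegree_L l) p
    rwa [add_zero] at this
  · have := cp (T.bidegree_g l) p
    rwa [add_zero] at this
  · have := cd (T.bidegree_N l) w
    rwa [add_zero] at this
  · have := cd (T.bidegree_f l) w
    rwa [add_zero] at this

end Pool.Agent.H79L
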