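import Mathlib

/-! Polynomials in an operator, applied to an eigenvector. -/

noncomputable section

namespace Pool.Agent.H79L

open Polynomial Module

universe v w

theorem aeval_eig {K : Type v} [Field K] {E : Type w} [AddCommGroup E] [Module K E]
    {H : Module.End K E} {x : E} {c : K} (h : H x = c • x) (P : K[X]) :
    aeval H P x = P.eval c • x := by
  induction P using Polynomial.induction_on' with
  | add p q hp hq => rw [map_add, eval_add, add_smul, LinearMap.add_apply, hp, hq]
  | monomial n a =>
    rw [aeval_monomial, eval_monomial, Module.End.mul_apply]
    have h1 : (H ^ n) x = c ^ n • x := by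
      induction n with
      | zero => simp
      | succ n ih => rw [pow_succ', Module.End.mul_apply, ih, map_smul, h, smul_smul, pow_succ]
    rw [h1]
    change a • (c ^ n • x) = _
    rw [smul_smul]

end Pool.Agent.H79L
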