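import Pool.Agent.W_a3c811_h62.LA.Reg

/-! Dimension count for a differential with a Laplacian (one theory). -/

noncomputable section

namespace Pool.Agent.H79L

open Module Polynomial Pool.Agent.H62A

universe v w

variable {K : Type v} [Field K] [CharZero K] {E : Type w} [AddCommGroup E] [Module K E]
  [FiniteDimensional K E]

/-- The data of a Fitting decomposition: `π` is the projector onto the part where `Δ` is nilpotent,
`G` is the inverse of `Δ` on the other part and zero on the first part. -/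
structure Fitting {R : Type w} [Ring R] (Δ π G : R) : Prop where
  idem : π * π = π
  inv : Δ * G = 1 - π
  inv' : G * Δ = 1 - π
  piG : π * G = 0
  Gpi : G * π = 0
  nil : ∃ m : ℕ, Δ ^ m * π = 0

theorem Fitting.map {R : Type w} [Ring R] {S : Type v} [Ring S] {Δ π G : R} (F : Fitting Δ π G)
    (φ : R →+* S) : Fitting (φ Δ) (φ π) (φ G) where
  idem := by rw [← map_mul, F.idem]
  inv := by rw [← map_mul, F.inv, map_sub, map_one]
  inv' := by rw [← map_mul, F.inv', map_sub, map_one]
  piG := by rw [← map_mul, F.piG, map_zero]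
  Gpi := by rw [← map_mul, F.Gpi, map_zero]
  nil := by
    obtain ⟨m, hm⟩ := F.nil
    exact ⟨m, by rw [← map_pow, ← map_mul, hm, map_zero]⟩

/-- `h = d3 G` is a quasi-inverse of `d` on the second part. -/
theorem Fitting.dhd {R : Type w} [Ring R] {Δ π G : R} (F : Fitting Δ π G) (d d3 : R)
    (hΔ : Δ = d * d3 + d3 * d) (dd : d * d = 0) (Gd : G * d = d * G) (πd : π * d = d * π) :
    d * (d3 * G) * d = d * (1 - π) := by
  have : d * (d3 * G) * d = Δ * G * d - d3 * G * (d * d) := by
    rw [hΔ]
    have h2 : (d * d3 + d3 * d) * G * d = d * (d3 * G) * d + d3 * (d * G) * d := by noncomm_ring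
    rw [h2, ← Gd]
    noncomm_ring
  rw [this, dd, mul_zero, sub_zero, F.inv, sub_mul, one_mul, πd, mul_sub, mul_one]

theorem rk_eq_of_range {a b : Module.End K E} (h : LinearMap.range a = LinearMap.range b) :
    TS.rk a = TS.rk b := by
  unfold TS.rk
  rw [h]

theorem range_mul_le (a b : Module.End K E) : LinearMap.range (a * b) ≤ LinearMap.range a := by
  rintro _ ⟨x, rfl⟩
  exact ⟨b x, rfl⟩

/-- The rank of `d` is the sum of the ranks on the two parts of a decomposition commuting with
`d`. -/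
theorem rk_add (d π : Module.End K E) (hπ : π * π = π) (hd : π * d = d * π) :
    TS.rk d = TS.rk (d * π) + TS.rk (d * (1 - π)) := by
  have h1 : LinearMap.range d = LinearMap.range (d * π) ⊔ LinearMap.range (d * (1 - π)) := by
    refine le_antisymm ?_ (sup_le (range_mul_le _ _) (range_mul_le _ _))
    rintro _ ⟨x, rfl⟩
    have : d x = (d * π) x + (d * (1 - π)) x := by
      simp [mul_sub]
    rw [this]
    exact Submodule.add_mem_sup ⟨x, rfl⟩ ⟨x, rfl⟩
  have h2 : LinearMap.range (d * π) ⊓ LinearMap.range (d * (1 - π)) = ⊥ := by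
    rw [eq_bot_iff]
    rintro _ ⟨⟨x, rfl⟩, ⟨y, hy⟩⟩
    have h3 : π * (d * (1 - π)) = 0 := by
      rw [← mul_assoc, hd, mul_assoc, mul_sub, mul_one, hπ, sub_self, mul_zero]
    have h4 : π * (d * π) = d * π := by
      rw [← mul_assoc, hd, mul_assoc, hπ]
    have h5 : (d * π) x = π ((d * π) x) := by
      rw [← Module.End.mul_apply, h4]
    rw [Submodule.mem_bot, h5, ← hy, ← Module.End.mul_apply, h3]
    rfl
  have h3 := Submodule.finrank_sup_add_finrank_inf_eq (LinearMap.range (d * π))
    (LinearMap.range (d * (1 - π)))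
  rw [h2, finrank_bot, add_zero, ← h1] at h3
  exact h3

/-- The dimension count: `dim E - 2 rk d = rk π - 2 rk (d π)`. -/
theorem Fitting.count {Δ π G : Module.End K E} (F : Fitting Δ π G) (d d3 : Module.End K E)
    (hΔ : Δ = d * d3 + d3 * d) (dd : d * d = 0) (Gd : G * d = d * G) (πd : π * d = d * π)
    (πd3 : π * d3 = d3 * π) :
    finrank K E + 2 * TS.rk (d * π) = TS.rk π + 2 * TS.rk d := by
  set h := d3 * G with hh
  have e1 : π * h = 0 := by rw [hh, ← mul_assoc, πd3, mul_assoc, F.piG, mul_zero]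
  have e2 : h * π = 0 := by rw [hh, mul_assoc, F.Gpi, mul_zero]
  have e3 : d * h * d = d * (1 - π) := F.dhd d d3 hΔ dd Gd πd
  have e4 : d * h + h * d = 1 - π := by
    rw [← F.inv, hΔ, hh]
    have : d3 * G * d = d3 * d * G := by rw [mul_assoc, Gd, ← mul_assoc]
    rw [this]
    noncomm_ring
  have e5 : (d * h) * (d * h) = d * h := by
    have : (d * h) * (d * h) = (d * h * d) * h := by noncomm_ring
    rw [this, e3, mul_assoc, sub_mul, one_mul, e1, sub_zero]
  have c1 : (1 - π) * d = d * (1 - π) := by rw [mul_sub, mul_one, sub_mul, one_mul, πd]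
  have e6 : (h * d) * (h * d) = h * d := by
    have : (h * d) * (h * d) = h * (d * h * d) := by noncomm_ring
    rw [this, e3, ← c1, ← mul_assoc, mul_sub, mul_one, e2, sub_zero]
  have e7 : (1 - π) * (1 - π) = 1 - π := by
    rw [mul_sub, mul_one, sub_mul, one_mul, F.idem, sub_self, sub_zero]
  have r1 : TS.rk (d * h) = TS.rk (d * (1 - π)) := by
    apply rk_eq_of_range
    apply le_antisymm
    · have : d * h = (d * (1 - π)) * h := by
        rw [mul_assoc, sub_mul, one_mul, e1, sub_zero]
      rw [this]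
      exact range_mul_le _ _
    · rw [← e3]
      exact range_mul_le _ _
  have r2 : TS.rk (h * d) = TS.rk (d * (1 - π)) := by
    apply le_antisymm
    · have : h * d = h * (d * (1 - π)) := by
        rw [← c1, ← mul_assoc, mul_sub, mul_one, e2, sub_zero]
      rw [this]
      exact TS.reg_rk_mul_le _ _
    · rw [← e3, mul_assoc]
      exact TS.reg_rk_mul_le _ _
  have t1 : (TS.rk (1 - π) : K) = ((TS.rk (d * h) + TS.rk (h * d) : ℕ) : K) := by
    rw [← TS.trace_idem _ e7, ← e4, map_add, TS.trace_idem _ e5, TS.trace_idem _ e6]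
    push_cast
    rfl
  have t2 : ((finrank K E : ℕ) : K) = ((TS.rk π + TS.rk (1 - π) : ℕ) : K) := by
    rw [← LinearMap.trace_one K E]
    have : (1 : Module.End K E) = π + (1 - π) := by abel
    rw [this, map_add, TS.trace_idem _ F.idem, TS.trace_idem _ (by simpa using e7)]
    push_cast
    simp
  have t1' := Nat.cast_injective t1
  have t2' := Nat.cast_injective t2
  have t3 := rk_add d π F.idem πd
  omega

/-- The rank of `π` is the multiplicity of `0` as a root of the characteristic polynomial. -/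
theorem Fitting.rk_pi {Δ π G : Module.End K E} (F : Fitting Δ π G) :
    TS.rk π = Δ.charpoly.rootMultiplicity 0 := by
  rw [← LinearMap.finrank_maxGenEigenspace_eq]
  have key : LinearMap.range π = Δ.maxGenEigenspace 0 := by
    ext x
    rw [Module.End.mem_maxGenEigenspace]
    simp only [zero_smul, sub_zero]
    constructor
    · rintro ⟨y, rfl⟩
      obtain ⟨m, hm⟩ := F.nil
      refine ⟨m, ?_⟩
      rw [← Module.End.mul_apply, hm]
      rfl
    · rintro ⟨m, hm⟩
      have hGΔ : Commute G Δ := by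
        change G * Δ = Δ * G
        rw [F.inv, F.inv']
      have h1 : (1 - π) ^ (m + 1) = 1 - π := by
        have h2 : IsIdempotentElem (1 - π) := by
          have : IsIdempotentElem π := F.idem
          exact this.one_sub
        exact h2.pow_succ_eq m
      have h2 : (1 - π) x = 0 := by
        rw [← h1, ← F.inv', hGΔ.mul_pow, pow_succ' Δ, Module.End.mul_apply, Module.End.mul_apply,
          hm, map_zero, map_zero]
      refine ⟨x, ?_⟩
      have h3 : x - π x = 0 := by simpa using h2
      exact (sub_eq_zero.1 h3).symm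
  unfold TS.rk
  rw [key]

section poly

/-- `χ = X ^ m g` with `m` the multiplicity of the root `0`, and a Bezout relation. -/
theorem exists_bezout (χ : ℚ[X]) (hχ : χ ≠ 0) : ∃ a b g : ℚ[X],
    χ = X ^ χ.rootMultiplicity 0 * g ∧ a * X ^ (χ.rootMultiplicity 0 + 1) + b * g = 1 := by
  obtain ⟨g, hg, hg'⟩ := exists_eq_pow_rootMultiplicity_mul_and_not_dvd χ hχ 0
  rw [C_0, sub_zero] at hg hg'
  have h1 : IsCoprime (X : ℚ[X]) g :=
    (prime_X.irreducible.coprime_iff_not_dvd).2 hg'
  obtain ⟨a, b, hab⟩ := h1.pow_left (m := χ.rootMultiplicity 0 + 1)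
  exact ⟨a, b, g, hg, hab⟩

theorem commute_aeval {R : Type w} [Ring R] [Algebra ℚ R] {x Δ : R} (h : x * Δ = Δ * x)
    (p : ℚ[X]) : x * aeval Δ p = aeval Δ p * x := by
  have h1 : Δ ∈ Subalgebra.centralizer ℚ {x} := by
    rw [Subalgebra.mem_centralizer_iff]
    rintro y rfl
    exact h
  have h2 : aeval Δ p ∈ Subalgebra.centralizer ℚ {x} :=
    (Algebra.adjoin_le (Set.singleton_subset_iff.2 h1)) (aeval_mem_adjoin_singleton ℚ Δ)
  exact (Subalgebra.mem_centralizer_iff ℚ).1 h2 x rfl

/-- A Fitting decomposition from a polynomial which kills `Δ`; the projector is a polynomial in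
`Δ`. -/
theorem exists_fitting {R : Type w} [Ring R] [Algebra ℚ R] (Δ : R) (χ : ℚ[X]) (hχ : χ ≠ 0)
    (h0 : aeval Δ χ = 0) : ∃ p q : ℚ[X], Fitting Δ (aeval Δ p) (aeval Δ q) := by
  obtain ⟨a, b, g, hg, hab⟩ := exists_bezout χ hχ
  set m := χ.rootMultiplicity 0
  have e1 : aeval Δ (b * g) = 1 - aeval Δ (a * X ^ (m + 1)) := by
    rw [eq_sub_iff_add_eq, ← map_add, add_comm, hab, map_one]
  have e2 : (b * g) * (a * X ^ (m + 1)) = b * a * X * χ := by
    conv_rhs => rw [hg]
    ring
  have e3 : aeval Δ (b * g) * aeval Δ (a * X ^ (m + 1)) = 0 := by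
    rw [← map_mul, e2, map_mul, h0, mul_zero]
  have e4 : aeval Δ (b * g) * aeval Δ (b * g) = aeval Δ (b * g) := by
    conv_lhs => rw [e1]
    rw [mul_sub, mul_one, ← e1]
    rw [e3, sub_zero]
  have e5 : aeval Δ (a * X ^ (m + 1)) = 1 - aeval Δ (b * g) := by rw [e1, sub_sub_cancel]
  have e6 : (1 - aeval Δ (b * g)) * (1 - aeval Δ (b * g)) = 1 - aeval Δ (b * g) := by
    rw [mul_sub, mul_one, sub_mul, one_mul, e4, sub_self, sub_zero]
  refine ⟨b * g, a * X ^ m * (a * X ^ (m + 1)), ⟨e4, ?_, ?_, ?_, ?_, m, ?_⟩⟩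
  · have : X * (a * X ^ m * (a * X ^ (m + 1))) = (a * X ^ (m + 1)) * (a * X ^ (m + 1)) := by ring
    have h2 := congrArg (aeval Δ) this
    rw [map_mul, aeval_X, map_mul (aeval Δ) (a * X ^ (m + 1)), e5, e6] at h2
    exact h2
  · have : (a * X ^ m * (a * X ^ (m + 1))) * X = (a * X ^ (m + 1)) * (a * X ^ (m + 1)) := by ring
    have h2 := congrArg (aeval Δ) this
    rw [map_mul, aeval_X, map_mul (aeval Δ) (a * X ^ (m + 1)), e5, e6] at h2
    exact h2
  · have : (b * g) * (a * X ^ m * (a * X ^ (m + 1))) = (a * X ^ m) * (b * a * X * χ) := by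
      rw [← e2]
      ring
    rw [← map_mul, this, map_mul, map_mul (aeval Δ) (b * a * X), h0, mul_zero, mul_zero]
  · have : (a * X ^ m * (a * X ^ (m + 1))) * (b * g) = (a * X ^ m) * (b * a * X * χ) := by
      rw [← e2]
      ring
    rw [← map_mul, this, map_mul, map_mul (aeval Δ) (b * a * X), h0, mul_zero, mul_zero]
  · have : X ^ m * (b * g) = b * χ := by
      conv_rhs => rw [hg]
      ring
    have h2 := congrArg (aeval Δ) this
    rw [map_mul, map_pow, aeval_X, map_mul (aeval Δ) b χ, h0, mul_zero] at h2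
    exact h2

/-- A nonzero integral multiple of a rational polynomial in `Δ` is an integral polynomial in
`Δ`. -/
theorem exists_int {R : Type w} [Ring R] [Algebra ℚ R] (Δ : R) (p : ℚ[X]) :
    ∃ c : ℤ, c ≠ 0 ∧ ∃ q : ℤ[X], aeval Δ q = (c : R) * aeval Δ p := by
  obtain ⟨c, hc, h⟩ := IsLocalization.integerNormalization_spec (nonZeroDivisors ℤ) p
  refine ⟨c, nonZeroDivisors.ne_zero hc,
    IsLocalization.integerNormalization (nonZeroDivisors ℤ) p, ?_⟩
  rw [← aeval_map_algebraMap ℚ, h, map_zsmul, zsmul_eq_mul]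

end poly

end Pool.Agent.H79L
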