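import Pool.Agent.W_MP_a3c811_h79.Lap.Abs
import Pool.Agent.W_a3c811_h62w.Main0

/-! (a1) The relations between the differential, its transforms and the Laplacian. -/

noncomputable section

namespace Pool.Agent.H79L

open Module

universe v w

section noncz

variable {K : Type v} [Field K] {E : Type w} [AddCommGroup E] [Module K E]
  {N f L g d : Module.End K E} {n : ℤ} {s t : ℤ → Module.End K E}
  {P D : Finset ℤ}

theorem br_eq (a b : Module.End K E) : br a b = H62W.br a b := rfl

theorem lap_eq (f g d : Module.End K E) : lap f g d = H62W.lap f g d := rfl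

theorem Sl.ext_sum (h : Sl N f s P) {a b : Module.End K E} (hab : ∀ p, a * s p = b * s p) :
    a = b := by
  rw [← mul_one a, ← mul_one b, ← h.sum, Finset.mul_sum, Finset.mul_sum]
  exact Finset.sum_congr rfl fun p _ => hab p

theorem intCast_eq (p : ℤ) : (p : Module.End K E) = (p : K) • (1 : Module.End K E) := by
  ext x
  simp [Int.cast_smul_eq_zsmul]

/-- `h N = N h + 2 N` -/
theorem Sl.hN (h : Sl N f s P) : br N f * N - N * br N f = 2 • N := by
  refine h.ext_sum fun p => ?_
  rw [sub_mul, mul_assoc, h.Ns, ← mul_assoc, h.h, mul_assoc, h.h, mul_smul_comm, smul_mul_assoc,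
    ← h.Ns, ← sub_smul, smul_mul_assoc, ← Nat.cast_smul_eq_nsmul K]
  congr 1
  push_cast
  ring

theorem Sl.hf (h : Sl N f s P) : br N f * f - f * br N f = -(2 • f) := by
  refine h.ext_sum fun p => ?_
  rw [sub_mul, mul_assoc, h.fs, ← mul_assoc, h.h, mul_assoc, h.h, mul_smul_comm, smul_mul_assoc,
    ← h.fs, ← sub_smul, neg_mul, smul_mul_assoc, ← Nat.cast_smul_eq_nsmul K, ← neg_smul]
  congr 1
  push_cast
  ring

/-- the second triple of a `Bi` -/
theorem Bi.sl2 (h : Bi N f L g d n s t P D) :
    Sl L g (fun p => t (p + n)) (D.image fun w => w - n) where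
  sum := by
    rw [Finset.sum_image (fun a _ b _ hab => by simpa using hab)]
    simpa using h.sumt
  idem p := h.idemt _
  orth p p' hp := h.ortht _ _ (by simpa using hp)
  h p := by
    rw [h.ht]; simp
  Ns p := by rw [h.Lt]; ring_nf
  fs p := by rw [h.gt]; ring_nf

theorem Sl.list (h : Sl N f s P) :
    ∃ l : List ℤ, (l.map fun p : ℤ => br N f - (p : Module.End K E)).prod = 0 := by
  have key : ∀ l : List ℤ, ∀ p, p ∈ l →
      (l.map fun p : ℤ => br N f - (p : Module.End K E)).prod * s p = 0 := by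
    intro l p hp
    have hc : ∀ q : ℤ, (br N f - (q : Module.End K E)) * s p = ((p - q : ℤ) : K) • s p := by
      intro q
      rw [sub_mul, h.h, intCast_eq, smul_mul_assoc, one_mul, ← sub_smul]
      push_cast
      rfl
    have : (l.map fun p : ℤ => br N f - (p : Module.End K E)).prod * s p =
        ((l.map fun q : ℤ => ((p - q : ℤ) : K)).prod) • s p := by
      clear hp
      induction l with
      | nil => simp
      | cons q l ih =>
        rw [List.map_cons, List.prod_cons, mul_assoc, ih, mul_smul_comm, hc, smul_smul,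
          List.map_cons, List.prod_cons, mul_comm]
    rw [this]
    have h0 : (l.map fun q : ℤ => ((p - q : ℤ) : K)).prod = 0 :=
      List.prod_eq_zero (List.mem_map.2 ⟨p, hp, by simp⟩)
    rw [h0, zero_smul]
  refine ⟨P.toList, ?_⟩
  rw [← mul_one (List.prod _), ← h.sum, Finset.mul_sum]
  exact Finset.sum_eq_zero fun p hp => key _ p (by simpa using hp)

theorem Bi.hd1 (h : Bi N f L g d n s t P D) : br N f * d - d * br N f = d := by
  refine h.sl.ext_sum fun p => ?_
  rw [sub_mul, mul_assoc, h.ds, ← mul_assoc, h.sl.h, mul_assoc, h.sl.h, mul_smul_comm,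
    smul_mul_assoc, ← h.ds, ← sub_smul]
  push_cast
  simp

theorem Bi.hd2 (h : Bi N f L g d n s t P D) : br L g * d - d * br L g = d := by
  refine h.sl2.ext_sum fun p => ?_
  rw [sub_mul, mul_assoc, h.dt, ← mul_assoc, h.ht, mul_assoc, h.ht, mul_smul_comm,
    smul_mul_assoc, ← h.dt, ← sub_smul]
  have : (((p + n + 1 - n : ℤ) : K) - ((p + n - n : ℤ) : K)) = 1 := by push_cast; ring
  rw [this, one_smul]

end noncz

variable {K : Type v} [Field K] [CharZero K] {E : Type w} [AddCommGroup E] [Module K E]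
  [FiniteDimensional K E] {N f L g d : Module.End K E} {n : ℤ} {s t : ℤ → Module.End K E}
  {P D : Finset ℤ}

theorem Bi.dd' (h : Bi N f L g d n s t P D) : H62W.DD N f (br N f) L g (br L g) d where
  ef1 := rfl
  ef2 := rfl
  ee := h.NL
  ef := h.Ng
  fe := h.fL
  ff := h.fg
  ed1 := h.Nd
  ed2 := h.Ld
  hd1 := h.hd1
  hd2 := h.hd2
  dd := h.dd
  z1 := H62W.ad_sq h.sl.hN h.sl.hf rfl h.hd1 h.Nd
  z2 := H62W.ad_sq h.sl2.hN h.sl2.hf rfl h.hd2 h.Ld

/-- `ad(f)^2 d = 0`: `d` is a highest weight vector of weight `1` for `(N, [N, f], f)` acting on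
`End E` by commutators (`IsSl2Triple.HasPrimitiveVectorWith.pow_toEnd_f_eq_zero_of_eq_nat`). -/
theorem Bi.ffd (h : Bi N f L g d n s t P D) : br f (br f d) = 0 := h.dd'.b_f1_q1

theorem Bi.ggd (h : Bi N f L g d n s t P D) : br g (br g d) = 0 := h.dd'.b_f2_q2

/-- The relations: with `d1 = [f, d]`, `d2 = [g, d]`, `d3 = [f, [g, d]]` all anticommutators vanish
except `{d, d3} = Δ = -{d1, d2}`. -/
theorem Bi.rel (h : Bi N f L g d n s t P D) :
    d * br f d + br f d * d = 0 ∧ d * br g d + br g d * d = 0 ∧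
    br f d * br f d = 0 ∧ br g d * br g d = 0 ∧
    br f (br g d) * br f (br g d) = 0 ∧
    br f d * br g d + br g d * br f d = - lap f g d ∧
    br f d * br f (br g d) + br f (br g d) * br f d = 0 ∧
    br g d * br f (br g d) + br f (br g d) * br g d = 0 := by
  have := H62W.Setup.tf (K := K) (V := E)
  have D := h.dd'
  exact ⟨D.a01, D.a02, D.a11, D.a22, D.a12_12, D.a12, D.a1_12, D.a2_12⟩

theorem Bi.lap_N (h : Bi N f L g d n s t P D) : lap f g d * N = N * lap f g d :=
  (H62W.br_eq_zero.1 h.dd'.lap_e1).symm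
theorem Bi.lap_f (h : Bi N f L g d n s t P D) : lap f g d * f = f * lap f g d := by
  have := H62W.Setup.tf (K := K) (V := E)
  exact (H62W.br_eq_zero.1 h.dd'.lap_f1).symm
theorem Bi.lap_L (h : Bi N f L g d n s t P D) : lap f g d * L = L * lap f g d :=
  (H62W.br_eq_zero.1 h.dd'.lap_e2).symm
theorem Bi.lap_g (h : Bi N f L g d n s t P D) : lap f g d * g = g * lap f g d := by
  have := H62W.Setup.tf (K := K) (V := E)
  exact (H62W.br_eq_zero.1 h.dd'.lap_f2).symm
theorem Bi.lap_d (h : Bi N f L g d n s t P D) : lap f g d * d = d * lap f g d :=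
  (H62W.br_eq_zero.1 h.dd'.lap_d).symm

end Pool.Agent.H79L
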