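import Pool.Agent.W_MP_a3c811_h79.Lap.Conv
import Pool.Agent.W_MP_a3c811_h79.Lap.Rel
import Pool.Agent.W_MP_a3c811_h79.Lap.Fit

/-! The Laplacian of a family: rational characteristic polynomial, projectors, Betti count. -/

noncomputable section

namespace Pool.Agent.H79L

open Polynomial Module Pool.Agent.WeilH_h6 Pool.Agent.WeilH_h6.VarClass Pool.Agent.H62D
  Pool.Agent.H62A

universe u v w

variable {k : Type u} [Field k] {𝒱 : VarClass k} {I : Type} {K : I → Type v} [∀ l, Field (K l)]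
  [∀ l, CharZero (K l)] {W : ∀ l, Weil.{u, v, w} 𝒱 (K l)} {C : MComplex W}

/-- evaluation at a theory -/
def ev (hW : Compatible W) (Y : C.ι → 𝒱.Obj) (l : I) :
    MA hW Y →+* Module.End (K l) (Tot (W l) Y) :=
  (Pi.evalRingHom (fun l => Module.End (K l) (Tot (W l) Y)) l).comp (MA hW Y).subtype

lemma ev_apply (hW : Compatible W) (Y : C.ι → 𝒱.Obj) (l : I) (x : MA hW Y) :
    ev hW Y l x = MA.val x l := rfl

lemma MA_ext {hW : Compatible W} {Y : C.ι → 𝒱.Obj} {x y : MA hW Y}
    (h : ∀ l, MA.val x l = MA.val y l) : x = y :=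
  Subtype.ext (funext h)

variable (T : Lefschetz C) (hW : Compatible W)

def Lefschetz.nA : MA hW C.Y := ⟨T.N, T.motivic_N⟩
def Lefschetz.lA : MA hW C.Y := ⟨T.L, T.motivic_L⟩
def Lefschetz.fA : MA hW C.Y := ⟨T.f, T.motivic_f⟩
def Lefschetz.gA : MA hW C.Y := ⟨T.g, T.motivic_g⟩

/-- `[f, [g, d]]` -/
def Lefschetz.d3A : MA hW C.Y :=
  T.fA hW * (T.gA hW * C.dA hW - C.dA hW * T.gA hW) -
    (T.gA hW * C.dA hW - C.dA hW * T.gA hW) * T.fA hW

/-- the Laplacian -/
def Lefschetz.lapA : MA hW C.Y := C.dA hW * T.d3A hW + T.d3A hW * C.dA hW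

lemma Lefschetz.lapA_val (l : I) : MA.val (T.lapA hW) l = T.lap l := rfl

lemma Lefschetz.lapA_val' (l : I) : MA.val (T.lapA hW) l =
    Pool.Agent.H79L.lap (K := K l) (E := Tot (W l) C.Y) (T.f l) (T.g l) (C.d l) := rfl

lemma Lefschetz.lap_comm_N : T.nA hW * T.lapA hW = T.lapA hW * T.nA hW := by
  refine MA_ext fun l => ?_
  obtain ⟨D, hD⟩ := T.bi l
  exact hD.lap_N.symm

lemma Lefschetz.lap_comm_f : T.fA hW * T.lapA hW = T.lapA hW * T.fA hW := by
  refine MA_ext fun l => ?_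
  obtain ⟨D, hD⟩ := T.bi l
  exact hD.lap_f.symm

lemma Lefschetz.lap_comm_L : T.lA hW * T.lapA hW = T.lapA hW * T.lA hW := by
  refine MA_ext fun l => ?_
  obtain ⟨D, hD⟩ := T.bi l
  exact hD.lap_L.symm

lemma Lefschetz.lap_comm_g : T.gA hW * T.lapA hW = T.lapA hW * T.gA hW := by
  refine MA_ext fun l => ?_
  obtain ⟨D, hD⟩ := T.bi l
  exact hD.lap_g.symm

lemma Lefschetz.lap_comm_d : C.dA hW * T.lapA hW = T.lapA hW * C.dA hW := by
  refine MA_ext fun l => ?_
  obtain ⟨D, hD⟩ := T.bi l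
  exact hD.lap_d.symm

lemma Lefschetz.lap_comm_d3 : T.d3A hW * T.lapA hW = T.lapA hW * T.d3A hW := by
  have h1 := T.lap_comm_f hW
  have h2 := T.lap_comm_g hW
  have h3 := T.lap_comm_d hW
  have e : ∀ x y : MA hW C.Y, x * T.lapA hW = T.lapA hW * x → y * T.lapA hW = T.lapA hW * y →
      (x * y - y * x) * T.lapA hW = T.lapA hW * (x * y - y * x) := by
    intro x y hx hy
    rw [sub_mul, mul_sub, mul_assoc, hy, ← mul_assoc, hx, mul_assoc y, hx, ← mul_assoc, hy,
      mul_assoc, mul_assoc]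
  exact e _ _ h1 (e _ _ h2 h3)

/-- `χ` is the common characteristic polynomial of the Laplacians. -/
def Lefschetz.IsChar (χ : ℚ[X]) : Prop :=
  ∀ l, (T.lap l).charpoly = χ.map (algebraMap ℚ (K l))

include hW in
theorem Lefschetz.exists_char [Nonempty I] (hK : ∀ a n, KunnethMotivic W (C.Y a) n) :
    ∃ χ, T.IsChar χ := by
  let t := MA.ts hW hK
  obtain ⟨χ, hχ⟩ := exists_charpoly (fun l => t.ρ l (T.lapA hW))
    (fun m => t.t (T.lapA hW ^ m)) (fun l m => by rw [← map_pow, t.tr])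
  exact ⟨χ, hχ⟩

variable {T}

theorem Lefschetz.IsChar.ne_zero [Nonempty I] {χ : ℚ[X]} (h : T.IsChar χ) : χ ≠ 0 := by
  rintro rfl
  have l : I := Classical.arbitrary I
  have h1 := h l
  rw [Polynomial.map_zero] at h1
  exact (LinearMap.charpoly_monic (T.lap l)).ne_zero h1

lemma aeval_val (hW : Compatible W) (Δ : MA hW C.Y) (p : ℚ[X]) (l : I) :
    MA.val (aeval Δ p) l = aeval (MA.val Δ l) (p.map (algebraMap ℚ (K l))) := by
  induction p using Polynomial.induction_on' with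
  | add p q hp hq =>
    rw [map_add, Polynomial.map_add, map_add, ← hp, ← hq]
    rfl
  | monomial n a =>
    rw [aeval_monomial, Polynomial.map_monomial, aeval_monomial]
    have h1 : MA.val (algebraMap ℚ (MA hW C.Y) a * Δ ^ n) l =
        MA.val (algebraMap ℚ (MA hW C.Y) a) l * MA.val (Δ ^ n) l := rfl
    have h2 : MA.val (Δ ^ n) l = MA.val Δ l ^ n := map_pow (ev hW C.Y l) Δ n
    have h3 : MA.val (algebraMap ℚ (MA hW C.Y) a) l =
        algebraMap (K l) (Module.End (K l) (Tot (W l) C.Y)) (algebraMap ℚ (K l) a) := by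
      refine LinearMap.ext fun x => ?_
      change ((a : ℚ) : K l) • x = (algebraMap ℚ (K l) a) • x
      rw [eq_ratCast]
    rw [h1, h2, h3]

theorem Lefschetz.IsChar.aeval_eq_zero (hW : Compatible W) {χ : ℚ[X]} (h : T.IsChar χ) :
    aeval (T.lapA hW) χ = 0 := by
  refine MA_ext fun l => ?_
  rw [aeval_val, T.lapA_val, ← h l]
  exact LinearMap.aeval_self_charpoly (T.lap l)

variable {χ : ℚ[X]}

theorem Lefschetz.IsChar.mult (h : T.IsChar χ) (l : I) :
    (T.lap l).charpoly.rootMultiplicity 0 = χ.rootMultiplicity 0 := by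
  rw [h l]
  have h1 := eq_rootMultiplicity_map (p := χ) (algebraMap ℚ (K l)).injective 0
  rw [map_zero] at h1
  exact h1.symm

/-- The Fitting decomposition of the Laplacian, jointly for all theories. -/
theorem Lefschetz.IsChar.exists_fitting [Nonempty I] (hW : Compatible W) {χ : ℚ[X]}
    (h : T.IsChar χ) : ∃ p q : ℚ[X],
      Fitting (T.lapA hW) (aeval (T.lapA hW) p) (aeval (T.lapA hW) q) :=
  Pool.Agent.H79L.exists_fitting _ χ h.ne_zero (h.aeval_eq_zero hW)

variable {hW} {p q : ℚ[X]}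

theorem count (h : T.IsChar χ) (F : Fitting (T.lapA hW) (aeval (T.lapA hW) p)
    (aeval (T.lapA hW) q)) (l : I) :
    C.betti l + 2 * TS.rk ((C.d l : Module.End (K l) (Tot (W l) C.Y)) *
      MA.val (aeval (T.lapA hW) p) l) = χ.rootMultiplicity 0 := by
  have Fl : Fitting (T.lap l : Module.End (K l) (Tot (W l) C.Y))
      (MA.val (aeval (T.lapA hW) p) l) (MA.val (aeval (T.lapA hW) q) l) := F.map (ev hW C.Y l)
  have c1 := commute_aeval (T.lap_comm_d hW) p
  have c2 := commute_aeval (T.lap_comm_d hW) q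
  have c3 := commute_aeval (T.lap_comm_d3 hW) p
  have h1 := Fl.count (C.d l) (MA.val (T.d3A hW) l) rfl (LinearMap.ext (C.d_sq' l))
    (congrArg (fun x => MA.val x l) c2.symm) (congrArg (fun x => MA.val x l) c1.symm)
    (congrArg (fun x => MA.val x l) c3.symm)
  have h2 := rk_of_betti (C.d l) (C.d_sq' l)
  have h3 := Fl.rk_pi
  have h4 := h.mult l
  have h5 : C.betti l = finrank (K l) (LinearMap.ker (C.d l)) -
      finrank (K l) (LinearMap.range (C.d l)) := rfl
  have h6 : finrank (K l) (Tot (W l) C.Y) = 2 * TS.rk (C.d l : Module.End (K l) (Tot (W l) C.Y)) +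
    C.betti l := h2
  change TS.rk (MA.val (aeval (T.lapA hW) p) l) = (T.lap l).charpoly.rootMultiplicity 0 at h3
  omega

theorem betti_le (h : T.IsChar χ) (F : Fitting (T.lapA hW) (aeval (T.lapA hW) p)
    (aeval (T.lapA hW) q)) (l : I) : C.betti l ≤ χ.rootMultiplicity 0 := by
  have := count h F l
  omega

theorem eq_of_zero (h : T.IsChar χ) (F : Fitting (T.lapA hW) (aeval (T.lapA hW) p)
    (aeval (T.lapA hW) q)) {l : I} (h0 : (C.d l : Module.End (K l) (Tot (W l) C.Y)) *
      MA.val (aeval (T.lapA hW) p) l = 0) : C.betti l = χ.rootMultiplicity 0 := by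
  have h1 := count h F l
  rw [h0] at h1
  have h2 : TS.rk (0 : Module.End (K l) (Tot (W l) C.Y)) = 0 := by
    unfold TS.rk
    rw [LinearMap.range_zero, finrank_bot]
  rw [h2] at h1
  simpa using h1

theorem zero_of_eq (h : T.IsChar χ) (F : Fitting (T.lapA hW) (aeval (T.lapA hW) p)
    (aeval (T.lapA hW) q)) {l : I} (h0 : C.betti l = χ.rootMultiplicity 0) :
    (C.d l : Module.End (K l) (Tot (W l) C.Y)) * MA.val (aeval (T.lapA hW) p) l = 0 := by
  have h1 := count h F l
  have h2 : TS.rk ((C.d l : Module.End (K l) (Tot (W l) C.Y)) *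
      MA.val (aeval (T.lapA hW) p) l) = 0 := by omega
  unfold TS.rk at h2
  have h3 := Submodule.finrank_eq_zero.1 h2
  exact LinearMap.range_eq_bot.1 h3

/-- the joint quasi-inverse of the differential -/
theorem quasi_inv (F : Fitting (T.lapA hW) (aeval (T.lapA hW) p) (aeval (T.lapA hW) q))
    (h0 : ∀ l, (C.d l : Module.End (K l) (Tot (W l) C.Y)) *
      MA.val (aeval (T.lapA hW) p) l = 0) (l : I) :
    (C.d l : Module.End (K l) (Tot (W l) C.Y)) *
      MA.val (T.d3A hW * aeval (T.lapA hW) q) l * C.d l = C.d l := by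
  have dd : C.dA hW * C.dA hW = 0 := MA_ext fun l => LinearMap.ext (C.d_sq' l)
  have c1 := commute_aeval (T.lap_comm_d hW) p
  have c2 := commute_aeval (T.lap_comm_d hW) q
  have h1 := F.dhd (C.dA hW) (T.d3A hW) rfl dd c2.symm c1.symm
  have h2 : C.dA hW * aeval (T.lapA hW) p = 0 := MA_ext h0
  rw [mul_sub, mul_one, h2, sub_zero] at h1
  exact congrArg (fun x => MA.val x l) h1

end Pool.Agent.H79L
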