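import Pool.Agent.W_MP_a3c811_h79.Lap.Eig
import Pool.Agent.W_MP_a3c811_h79.Lap.Fam

/-! The Künneth projectors are polynomials in the commutator of the Lefschetz operators. -/

noncomputable section

namespace Pool.Agent.H79L

open Polynomial Module Pool.Agent.WeilH_h6 Pool.Agent.WeilH_h6.VarClass Pool.Agent.H62D
  Pool.Agent.H62A

universe u v w

section single

variable {k : Type u} [Field k] {𝒱 : VarClass k} {ι : Type} (Y : ι → 𝒱.Obj) (pos tw : ι → ℤ)

/-- the degrees which occur -/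
def degs [Fintype ι] : Finset ℤ :=
  Finset.univ.biUnion fun a => (Finset.range (2 * (Y a).dim + 1)).image
    fun n : ℕ => (n : ℤ) + pos a + 2 * tw a

variable {K : Type v} [Field K] (W : Weil.{u, v, w} 𝒱 K)

lemma sum_degs [Fintype ι] :
    ∑ w ∈ degs Y pos tw, degProj W Y pos tw w = LinearMap.id := by
  classical
  refine LinearMap.ext fun x => funext fun a => ?_
  rw [LinearMap.sum_apply, Finset.sum_apply]
  simp only [Proj_degProj_apply, LinearMap.id_apply]
  have key : ∀ m ∈ Finset.range (2 * (Y a).dim + 1), ∀ y ∈ W.grad (Y a) m,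
      ∑ w ∈ degs Y pos tw, kapZ W (Y a) (w - pos a - 2 * tw a) y = y := by
    intro m hm y hy
    have hy' : y ∈ gradZ W (Y a) (m : ℤ) := by
      unfold gradZ
      rw [if_pos (by omega), Int.toNat_natCast]
      exact hy
    rw [Finset.sum_eq_single ((m : ℤ) + pos a + 2 * tw a)]
    · rw [show (m : ℤ) + pos a + 2 * tw a - pos a - 2 * tw a = m by ring]
      exact kapZ_of_mem W hy'
    · intro w _ hw
      refine kapZ_of_mem_ne W ?_ hy'
      intro h
      apply hw
      rw [h]
      ring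
    · intro h
      exact absurd (Finset.mem_biUnion.2 ⟨a, Finset.mem_univ a,
        Finset.mem_image.2 ⟨m, hm, rfl⟩⟩) h
  conv_lhs => rw [← sum_kap W (x a)]
  conv_rhs => rw [← sum_kap W (x a)]
  simp only [map_sum]
  rw [Finset.sum_comm]
  exact Finset.sum_congr rfl fun m hm => key m hm _ (kap_mem W m (x a))

end single

/-- the Lagrange polynomial -/
def lag (D : Finset ℤ) (n w0 : ℤ) : ℚ[X] :=
  ∏ w ∈ D.erase w0, C (((w0 - w : ℤ) : ℚ)⁻¹) * (X - C ((w - n : ℤ) : ℚ))

theorem lag_eval (D : Finset ℤ) (n w0 : ℤ) {w : ℤ} (hw : w ∈ D) :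
    (lag D n w0).eval (((w - n : ℤ) : ℚ)) = if w = w0 then 1 else 0 := by
  unfold lag
  rw [eval_prod]
  split_ifs with h
  · subst h
    refine Finset.prod_eq_one fun w' hw' => ?_
    rw [eval_mul, eval_C, eval_sub, eval_X, eval_C]
    have h1 : ((w - w' : ℤ) : ℚ) ≠ 0 := by
      have := Finset.ne_of_mem_erase hw'
      exact_mod_cast sub_ne_zero.2 (Ne.symm this)
    have h2 : ((w - n : ℤ) : ℚ) - ((w' - n : ℤ) : ℚ) = ((w - w' : ℤ) : ℚ) := by
      push_cast; ring
    rw [h2, inv_mul_cancel₀ h1]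
  · refine Finset.prod_eq_zero (Finset.mem_erase.2 ⟨h, hw⟩) ?_
    rw [eval_mul, eval_sub, eval_X, eval_C, eval_C, sub_self, mul_zero]

variable {k : Type u} [Field k] {𝒱 : VarClass k} {I : Type} {K : I → Type v} [∀ l, Field (K l)]
  [∀ l, CharZero (K l)] {W : ∀ l, Weil.{u, v, w} 𝒱 (K l)} {C : MComplex W}

theorem Lefschetz.motivic_deg (T : Lefschetz C) (hW : Compatible W) (w0 : ℤ) :
    Motivic W C.Y (fun l => degProj (W l) C.Y C.pos C.tw w0) := by
  set hA : MA hW C.Y := T.lA hW * T.gA hW - T.gA hW * T.lA hW with hh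
  have h1 : ∀ l w, ∀ x ∈ degPart (W l) C.Y C.pos C.tw w,
      MA.val hA l x = ((w - T.n : ℤ) : K l) • x := T.triple_L
  have h2 : ∀ l, MA.val (aeval hA (lag (degs C.Y C.pos C.tw) T.n w0)) l =
      degProj (W l) C.Y C.pos C.tw w0 := by
    intro l
    refine LinearMap.ext fun x => ?_
    have hx : x = ∑ w ∈ degs C.Y C.pos C.tw, degProj (W l) C.Y C.pos C.tw w x := by
      conv_lhs => rw [← LinearMap.id_apply (R := K l) x, ← sum_degs C.Y C.pos C.tw (W l),
        LinearMap.sum_apply]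
    rw [hx, map_sum, map_sum]
    refine Finset.sum_congr rfl fun w hw => ?_
    have hm := degProj_mem (W l) C.Y C.pos C.tw w x
    rw [aeval_val, aeval_eig (h1 l w _ hm)]
    have h3 : (((w - T.n : ℤ) : K l)) = algebraMap ℚ (K l) ((w - T.n : ℤ) : ℚ) := by
      rw [map_intCast]
    rw [h3, eval_map_algebraMap, aeval_algebraMap_apply, coe_aeval_eq_eval, lag_eval _ _ _ hw]
    split_ifs with h
    · subst h
      rw [degProj_of_mem _ _ _ _ hm, map_one, one_smul]
    · rw [Proj_degProj_of_mem_ne _ _ _ _ h hm, map_zero, zero_smul]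
  have h3 := (aeval hA (lag (degs C.Y C.pos C.tw) T.n w0)).2
  have h4 : (fun l => degProj (W l) C.Y C.pos C.tw w0) =
      (aeval hA (lag (degs C.Y C.pos C.tw) T.n w0)).1 := funext fun l => (h2 l).symm
  rw [h4]
  exact h3

theorem kunneth_of_JHom {X : 𝒱.Obj} {n : ℕ} (h : (fun l => kap (W l) X n) ∈ JHom W X X) :
    KunnethMotivic W X n := by
  obtain ⟨x, ⟨z, hz⟩, hx⟩ := h
  refine ⟨z, fun l i a b ha => ?_⟩
  rw [← hz l]
  change (W l).tr _ (x l * _) = _
  have h1 := (W l).tr_act (x l) a b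
  have h2 : (W l).act (x l) a = kap (W l) X n a := (LinearMap.congr_fun (hx l) a).symm
  rw [h2, kap_apply (W l) ha] at h1
  refine Eq.trans h1.symm ?_
  split_ifs with h3
  · rfl
  · rw [zero_mul, map_zero]

theorem Lefschetz.kunneth (T : Lefschetz C) (hW : Compatible W) (a : C.ι) (n : ℕ) :
    KunnethMotivic W (C.Y a) n := by
  classical
  refine kunneth_of_JHom ?_
  have h1 := motivic_iff.1 (T.motivic_deg hW ((n : ℤ) + C.pos a + 2 * C.tw a)) a a
  have h2 : (fun l => blk (W l) (degProj (W l) C.Y C.pos C.tw ((n : ℤ) + C.pos a + 2 * C.tw a))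
      a a) = fun l => kap (W l) (C.Y a) n := by
    funext l
    refine LinearMap.ext fun v => ?_
    change degProj (W l) C.Y C.pos C.tw _ (Pi.single a v) a = _
    rw [Proj_degProj_apply, Pi.single_eq_same,
      show (n : ℤ) + C.pos a + 2 * C.tw a - C.pos a - 2 * C.tw a = n by ring]
    unfold kapZ
    rw [if_pos (by omega), Int.toNat_natCast]
  rw [h2] at h1
  exact h1

end Pool.Agent.H79L
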