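import Pool.Agent.W_MP_a3c811_h79.Lap.Real

/-! The joint quasi-inverse of the monodromy operator and the final theorem. -/

noncomputable section

namespace Pool.Agent.H79L

open Polynomial Module Pool.Agent.WeilH_h6 Pool.Agent.WeilH_h6.VarClass Pool.Agent.H62D
  Pool.Agent.H62A

universe uA uI u v w

section ts

variable {A : Type uA} [Ring A] [Algebra ℚ A] {I : Type uI} {K : I → Type v}
    [∀ l, Field (K l)] [∀ l, CharZero (K l)] {V : I → Type w} [∀ l, AddCommGroup (V l)]
    [∀ l, Module (K l) (V l)] (T : TS A K V)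

theorem ts_aeval (t : A) (p : ℚ[X]) (l : I) :
    T.ρ l (aeval t p) = aeval (T.ρ l t) (p.map (algebraMap ℚ (K l))) := by
  induction p using Polynomial.induction_on' with
  | add p q hp hq => rw [map_add, Polynomial.map_add, map_add, map_add, hp, hq]
  | monomial n a =>
    rw [aeval_monomial, Polynomial.map_monomial, aeval_monomial, map_mul, map_pow]
    congr 1
    refine LinearMap.ext fun x => ?_
    rw [TS.retract_rat T l a x]
    change ((a : ℚ) : K l) • x = (algebraMap ℚ (K l) a) • x
    rw [eq_ratCast]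

variable [∀ l, FiniteDimensional (K l) (V l)]

theorem exists_quasi [Nonempty I] (n y : A)
    (h1 : ∀ l x, T.ρ l y (T.ρ l n x) = 0 → T.ρ l n x = 0)
    (h2 : ∀ l x, T.ρ l n (T.ρ l y x) = 0 → T.ρ l y x = 0) :
    ∃ h : A, ∀ l, T.ρ l n * T.ρ l h * T.ρ l n = T.ρ l n := by
  obtain ⟨χ, hχ⟩ := exists_charpoly (fun l => T.ρ l (y * n)) (fun m => T.t ((y * n) ^ m))
    (fun l m => by rw [← map_pow, T.tr])
  have hne : χ ≠ 0 := by
    rintro rfl
    have l : I := Classical.arbitrary I
    have h3 := hχ l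
    rw [Polynomial.map_zero] at h3
    exact (LinearMap.charpoly_monic (T.ρ l (y * n))).ne_zero h3
  obtain ⟨a, b, g, hg, hab⟩ := exists_bezout χ hne
  set m := χ.rootMultiplicity 0 with hm
  have z : ∀ l, T.ρ l (aeval (y * n) χ) = 0 := by
    intro l
    rw [ts_aeval, ← hχ l]
    exact LinearMap.aeval_self_charpoly _
  have app : ∀ l x, T.ρ l (y * n) x = T.ρ l y (T.ρ l n x) := by
    intro l x
    rw [map_mul, Module.End.mul_apply]
  have k2 : ∀ l x, T.ρ l (y * n) (T.ρ l (y * n) x) = 0 → T.ρ l (y * n) x = 0 := by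
    intro l x hx
    rw [app, app] at hx
    rw [app]
    exact h2 l _ (h1 l _ hx)
  have k3 : ∀ l (j : ℕ) x, (T.ρ l (y * n) ^ j) x = 0 → T.ρ l (y * n) x = 0 := by
    intro l j
    induction j with
    | zero =>
      intro x hx
      rw [pow_zero, Module.End.one_apply] at hx
      rw [hx, map_zero]
    | succ j ih =>
      intro x hx
      rw [pow_succ, Module.End.mul_apply] at hx
      exact k2 l x (ih _ hx)
  have e1 : ∀ l x, T.ρ l (y * n) (T.ρ l (aeval (y * n) g) x) = 0 := by
    intro l x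
    refine k3 l m _ ?_
    have h3 := z l
    rw [hg, map_mul, map_mul, map_pow, aeval_X, map_pow] at h3
    exact LinearMap.congr_fun h3 x
  refine ⟨aeval (y * n) (a * X ^ m) * y, fun l => ?_⟩
  refine LinearMap.ext fun x => ?_
  have e2 : T.ρ l (y * n) (x - T.ρ l (aeval (y * n) (a * X ^ m)) (T.ρ l (y * n) x)) = 0 := by
    have h3 : aeval (y * n) (a * X ^ m) * (y * n) + aeval (y * n) b * aeval (y * n) g = 1 := by
      have h4 := congrArg (aeval (y * n)) hab
      have h6 : a * X ^ (m + 1) = a * X ^ m * X := by ring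
      rw [map_add, map_one, map_mul _ b g, h6, map_mul _ (a * X ^ m) X, aeval_X] at h4
      exact h4
    have h5 := congrArg (fun c => T.ρ l c x) h3
    simp only [map_add, map_mul _ (aeval (y * n) (a * X ^ m)), map_mul _ (aeval (y * n) b),
      map_one, LinearMap.add_apply, Module.End.mul_apply, Module.End.one_apply] at h5
    have h6 : x - T.ρ l (aeval (y * n) (a * X ^ m)) (T.ρ l (y * n) x) =
        T.ρ l (aeval (y * n) b) (T.ρ l (aeval (y * n) g) x) := by
      rw [sub_eq_iff_eq_add, add_comm]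
      exact h5.symm
    have h7 : (y * n) * aeval (y * n) b = aeval (y * n) b * (y * n) := commute_aeval rfl b
    have h8 := congrArg (fun c => T.ρ l c (T.ρ l (aeval (y * n) g) x)) h7
    simp only [map_mul _ (y * n) (aeval (y * n) b), map_mul _ (aeval (y * n) b) (y * n),
      Module.End.mul_apply] at h8
    rw [h6, h8, e1, map_zero]
  rw [app] at e2
  have e3 := h1 l _ e2
  rw [map_sub, sub_eq_zero, app] at e3
  rw [Module.End.mul_apply, Module.End.mul_apply, map_mul, Module.End.mul_apply]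
  exact e3.symm

end ts

variable {k : Type u} [Field k] {𝒱 : VarClass k} {I : Type} {K : I → Type v} [∀ l, Field (K l)]
  [∀ l, CharZero (K l)] {W : ∀ l, Weil.{u, v, w} 𝒱 (K l)} {C : MComplex W}
  {T : Lefschetz C} {hW : Compatible W} {p q : ℚ[X]}

theorem real_main [Nonempty I] (hK : ∀ a n, KunnethMotivic W (C.Y a) n)
    (F : Fitting (T.lapA hW) (aeval (T.lapA hW) p) (aeval (T.lapA hW) q))
    (h0 : ∀ l, (C.d l : Module.End (K l) (Tot (W l) C.Y)) * piv T hW p l = 0)
    (R : Realisation C) (hR : T.Compat R) (w : ℤ) :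
    ∃ A B : ℚ[X], ∀ l, CharpolyOn (R.φ l) (R.deg l w) A ∧ CharpolyOn (R.φ l) (R.inv l w) B := by
  have hh := quasi_inv F h0
  let G := mkStage R hW hK (T.d3A hW * aeval (T.lapA hW) q) hh
  obtain ⟨A, hA⟩ := G.charpoly_deg w
  choose θ hθ using fun l => exists_desc_f F h0 hR l
  obtain ⟨y, hy⟩ := exists_elem R hW hK (T.d3A hW * aeval (T.lapA hW) q) hh
    (T.fA hW * aeval (T.lapA hW) p) θ hθ
  have hs := fun l => sl_real F hR l (hθ l)
  obtain ⟨hq, hhq⟩ := exists_quasi (T2 R hW hK (T.d3A hW * aeval (T.lapA hW) q) hh) G.n y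
    (fun l x => by
      rw [hy l, stage_n R hW hK (T.d3A hW * aeval (T.lapA hW) q) hh l]
      exact (hs l).ker_f x)
    (fun l x => by
      rw [hy l, stage_n R hW hK (T.d3A hW * aeval (T.lapA hW) q) hh l]
      exact (hs l).ker_N x)
  obtain ⟨B, hB⟩ := G.charpoly_inv w hq (fun l => by
    rw [map_mul]
    have e := G.ng l w
    calc _ = (T2 R hW hK (T.d3A hW * aeval (T.lapA hW) q) hh).ρ l (G.g w) *
          ((T2 R hW hK (T.d3A hW * aeval (T.lapA hW) q) hh).ρ l G.n *
          (T2 R hW hK (T.d3A hW * aeval (T.lapA hW) q) hh).ρ l hq *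
          (T2 R hW hK (T.d3A hW * aeval (T.lapA hW) q) hh).ρ l G.n) *
          (T2 R hW hK (T.d3A hW * aeval (T.lapA hW) q) hh).ρ l (G.g w) := by
            rw [e]
            conv_lhs => rw [← e]
            simp only [mul_assoc]
            rw [← mul_assoc ((T2 R hW hK (T.d3A hW * aeval (T.lapA hW) q) hh).ρ l (G.g w))
              ((T2 R hW hK (T.d3A hW * aeval (T.lapA hW) q) hh).ρ l (G.n)), ← e]
            simp only [mul_assoc]
      _ = _ := by
        rw [hhq l, ← e, mul_assoc, G.g_idem])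
  refine ⟨A, B, fun l => ⟨?_, ?_⟩⟩
  · have := hA l
    rw [range_g R hW hK _ hh l w, stage_f] at this
    exact this
  · have := hB l
    rw [range_inv R hW hK _ hh l w, stage_f] at this
    exact this

end Pool.Agent.H79L
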