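import Pool.Agent.W_MP_a3c811_h79.Lap.Ani
import Pool.Agent.W_MP_a3c811_h79.Lap.Quasi
import Pool.Agent.W_MP_a3c811_h79.Lap.Kun

/-! The final theorem. -/

noncomputable section

namespace Pool.Agent.H79L

open Polynomial Module Pool.Agent.WeilH_h6 Pool.Agent.WeilH_h6.VarClass Pool.Agent.H62D
  Pool.Agent.H62A

universe u v w

variable {k : Type u} [Field k] {𝒱 : VarClass k} {I : Type} {K : I → Type v} [∀ l, Field (K l)]
  [∀ l, CharZero (K l)] {W : ∀ l, Weil.{u, v, w} 𝒱 (K l)}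

theorem final (hW : Compatible W) (C : MComplex W) (T : Lefschetz C) :
    ∃ χ : ℚ[X], (∀ l, (T.lap l).charpoly = χ.map (algebraMap ℚ (K l))) ∧
      (∀ l, C.betti l ≤ χ.rootMultiplicity 0) ∧
      (∀ l, T.Anisotropic l → C.betti l = χ.rootMultiplicity 0) ∧
      ((∀ l, C.betti l = χ.rootMultiplicity 0) → ∀ R : Realisation C, T.Compat R →
        (∀ l, R.WeightMonodromy l) ∧ ∀ w, ∃ A B : ℚ[X], ∀ l,
          CharpolyOn (R.φ l) (R.deg l w) A ∧ CharpolyOn (R.φ l) (R.inv l w) B) := by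
  rcases isEmpty_or_nonempty I with hI | hI
  · exact ⟨0, fun l => hI.elim l, fun l => hI.elim l, fun l => hI.elim l,
      fun _ R _ => ⟨fun l => hI.elim l, fun w => ⟨0, 0, fun l => hI.elim l⟩⟩⟩
  · have hK := T.kunneth hW
    obtain ⟨χ, hχ⟩ := T.exists_char hW hK
    obtain ⟨p, q, F⟩ := hχ.exists_fitting hW
    refine ⟨χ, hχ, fun l => betti_le hχ F l, fun l hl => eq_of_zero hχ F (zero_of_aniso F hl),
      fun hb R hR => ?_⟩
    have h0 := fun l => zero_of_eq hχ F (hb l)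
    exact ⟨fun l => wm_real F h0 hR l, fun w => real_main hK F h0 R hR w⟩

end Pool.Agent.H79L
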