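import Pool.Agent.W_MP_b4801b_h67.Lam

/-! Existence of a good prime. -/

noncomputable section

open Polynomial

namespace Pool.Agent.H79L

universe v

theorem exists_inv (Q : ℚ[X]) (c : ℚ) (hc : 0 < c)
    (hpure : ∀ z : ℂ, aeval z Q = 0 → ‖z‖ ^ 2 = (c : ℝ)) :
    ∃ g : ℚ[X], ∀ (L : Type v) [Field L] [Algebra ℚ L] (z : L), aeval z Q = 0 →
      z ≠ 0 ∧ aeval z g = algebraMap ℚ L c / z := by
  have h0 : aeval (0 : ℂ) Q ≠ 0 := by
    intro h
    have := hpure 0 h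
    rw [norm_zero] at this
    have hc' : (0 : ℝ) < c := by exact_mod_cast hc
    simp at this
    linarith
  have hcop : IsCoprime X Q := by
    rw [irreducible_X.coprime_iff_not_dvd]
    rintro ⟨R, rfl⟩
    apply h0
    rw [map_mul, aeval_X, zero_mul]
  obtain ⟨u, v, huv⟩ := hcop
  refine ⟨C c * u, ?_⟩
  intro L _ _ z hz
  have h1 := congrArg (aeval z) huv
  rw [map_add, map_mul, map_mul, aeval_X, hz, mul_zero, add_zero, map_one] at h1
  have hz0 : z ≠ 0 := by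
    rintro rfl
    rw [mul_zero] at h1
    exact zero_ne_one h1
  refine ⟨hz0, ?_⟩
  rw [map_mul, aeval_C, eq_div_iff hz0, mul_assoc, h1, mul_one]

/-- a prime `m ≠ p` with an automorphism of the algebraic closure of `ℚ_m` which acts on the roots of
the polynomials `A ω` as complex conjugation -/
theorem exists_prime {r : ℕ} (A : Fin r → ℚ[X]) (c : Fin r → ℚ) (hc : ∀ i, 0 < c i)
    (hs : ∀ i, (A i).Separable) (hpure : ∀ i, ∀ z : ℂ, aeval z (A i) = 0 → ‖z‖ ^ 2 = (c i : ℝ))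
    (p : ℕ) : ∃ m : ℕ, ∃ _ : Fact m.Prime, m ≠ p ∧
      ∃ σ : AlgebraicClosure ℚ_[m] ≃ₐ[ℚ_[m]] AlgebraicClosure ℚ_[m],
        ∀ i, ∀ β : AlgebraicClosure ℚ_[m], aeval β (A i) = 0 → β ≠ 0 ∧
          σ β = algebraMap ℚ (AlgebraicClosure ℚ_[m]) (c i) / β := by
  choose g hg using fun i => exists_inv.{0} (A i) (c i) (hc i) (hpure i)
  have hmain := Pool.Agent.H62D.not_summable_conjSet A g hs (fun i z hz => by
    obtain ⟨hz0, h1⟩ := hg i ℂ z hz
    rw [h1]
    have h3 := hpure i z hz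
    have h4 : (algebraMap ℚ ℂ (c i)) = z * starRingEnd ℂ z := by
      rw [Complex.mul_conj, Complex.normSq_eq_norm_sq, h3]
      simp
    rw [h4, mul_div_assoc, mul_comm, div_mul_cancel₀ _ hz0])
  by_contra hcon
  push Not at hcon
  apply hmain
  have hsub : Pool.Agent.H62D.ConjSet A g ⊆ {p} := by
    rintro m ⟨hm, hσ⟩
    haveI : Fact m.Prime := ⟨hm⟩
    obtain ⟨σ, hσ⟩ := hσ
    by_contra hmp
    obtain ⟨i, β, hβ, h⟩ := hcon m ⟨hm⟩ hmp σ
    obtain ⟨h1, h2⟩ := hg i _ β hβ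
    exact h h1 ((hσ i β hβ).trans h2)
  have : Finite (Pool.Agent.H62D.ConjSet A g) := Set.Finite.subset (Set.finite_singleton p) hsub
  exact Summable.of_finite

/-- in a field embedded in `ℚ_m` the irreducible factors are self dual -/
theorem selfDual_of_auto {K : Type v} [Field K] [CharZero K] {m : ℕ} [Fact m.Prime]
    (φ : K →+* ℚ_[m]) (A : ℚ[X]) (c : ℚ)
    (σ : AlgebraicClosure ℚ_[m] ≃ₐ[ℚ_[m]] AlgebraicClosure ℚ_[m])
    (hσ : ∀ β : AlgebraicClosure ℚ_[m], aeval β A = 0 → β ≠ 0 ∧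
          σ β = algebraMap ℚ (AlgebraicClosure ℚ_[m]) c / β)
    (g : K[X]) (hg : g ∣ A.map (algebraMap ℚ K)) :
    B4801b.SelfDualPoly (algebraMap ℚ K c) g := by
  intro α hα
  letI : Algebra K ℚ_[m] := φ.toAlgebra
  haveI : IsScalarTower K ℚ_[m] (AlgebraicClosure ℚ_[m]) := inferInstance
  let ψ : AlgebraicClosure K →ₐ[K] AlgebraicClosure ℚ_[m] := IsAlgClosed.lift
  have hA : aeval α A = 0 := by
    obtain ⟨R, hR⟩ := hg
    have h1 := congrArg (aeval α) hR
    rw [map_mul, hα, zero_mul, aeval_map_algebraMap] at h1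
    exact h1
  have hA' : aeval (ψ α) A = 0 := by
    have h1 : aeval (ψ α) A = ψ (aeval α A) := by
      have h2 := Polynomial.aeval_algHom_apply (ψ.restrictScalars ℚ) α A
      exact h2
    rw [h1, hA, map_zero]
  obtain ⟨h0, h1⟩ := hσ _ hA'
  have h2 : aeval (ψ α) g = 0 := by
    rw [Polynomial.aeval_algHom_apply, hα, map_zero]
  have h3 : aeval (σ (ψ α)) g = 0 := by
    have h4 := Polynomial.aeval_algHom_apply ((σ : AlgebraicClosure ℚ_[m] →ₐ[ℚ_[m]]
      AlgebraicClosure ℚ_[m]).restrictScalars K) (ψ α) g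
    rw [h2, map_zero] at h4
    exact h4
  rw [h1] at h3
  have h5 : algebraMap ℚ (AlgebraicClosure ℚ_[m]) c / ψ α =
      ψ (algebraMap K (AlgebraicClosure K) (algebraMap ℚ K c) / α) := by
    rw [map_div₀, AlgHom.commutes]
    congr 1
    rw [eq_ratCast, eq_ratCast, map_ratCast]
  rw [h5, Polynomial.aeval_algHom_apply] at h3
  exact (map_eq_zero ψ).1 h3

end Pool.Agent.H79L
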