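import Pool.Agent.W_MP_a3c811_h79.Lap.Simple

/-! (a5) Anisotropy from simple eigenvalues and a rational structure. -/

noncomputable section

namespace Pool.Agent.H79L

open Module Polynomial Pool.Agent.B4801b

universe v w

variable {K : Type v} [Field K] {E : Type w} [AddCommGroup E] [Module K E]

/-- The primitive part: the vectors of degree `n - j` and position `-i` killed by `f` and `g`. -/
def prim (f g : Module.End K E) (n : ℤ) (s t : ℤ → Module.End K E) (i j : ℕ) :
    Submodule K E where
  carrier := {x | t (n - j) (s (-i) x) = x ∧ f x = 0 ∧ g x = 0}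
  add_mem' := by
    rintro x y ⟨h1, h2, h3⟩ ⟨k1, k2, k3⟩
    exact ⟨by rw [map_add, map_add, h1, k1], by rw [map_add, h2, k2, add_zero],
      by rw [map_add, h3, k3, add_zero]⟩
  zero_mem' := by simp
  smul_mem' := by
    rintro c x ⟨h1, h2, h3⟩
    exact ⟨by rw [map_smul, map_smul, h1], by rw [map_smul, h2, smul_zero],
      by rw [map_smul, h3, smul_zero]⟩

/-- The operator `Φ` (the Frobenius, normalised to weight zero) commutes with the operators and is
unitary for `S`. -/
structure Normal (N f L g d : Module.End K E) (s t : ℤ → Module.End K E)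
    (S : E →ₗ[K] E →ₗ[K] K) (Φ : Module.End K E) : Prop where
  N : Φ * N = N * Φ
  f : Φ * f = f * Φ
  L : Φ * L = L * Φ
  g : Φ * g = g * Φ
  d : Φ * d = d * Φ
  s : ∀ p, Φ * s p = s p * Φ
  t : ∀ w, Φ * t w = t w * Φ
  uni : ∀ x y, S (Φ x) (Φ y) = S x y

/-- The characteristic polynomial of `Φ` on the stable subspace `U` is `P`. -/
def HasCP [FiniteDimensional K E] (Φ : Module.End K E) (U : Submodule K E) (P : K[X]) : Prop :=
  ∃ h : ∀ x ∈ U, Φ x ∈ U, (Φ.restrict h).charpoly = P

variable {N f L g d : Module.End K E} {n : ℤ} {s t : ℤ → Module.End K E} {P D : Finset ℤ}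

theorem aeval_restrict {Φ : Module.End K E} {U : Submodule K E} (h : ∀ x ∈ U, Φ x ∈ U) (q : K[X])
    (x : U) : ((aeval (Φ.restrict h) q x : U) : E) = aeval Φ q (x : E) := by
  induction q using Polynomial.induction_on' with
  | add p q hp hq => simp only [map_add, LinearMap.add_apply, Submodule.coe_add, hp, hq]
  | monomial n a =>
    simp only [aeval_monomial, Module.End.mul_apply, Module.algebraMap_end_apply,
      Submodule.coe_smul]
    congr 1
    induction n with
    | zero => simp
    | succ n ih =>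
      rw [pow_succ', pow_succ', Module.End.mul_apply, Module.End.mul_apply, ← ih]
      rfl

theorem comm_app {a b : Module.End K E} (h : a * b = b * a) (x : E) : a (b x) = b (a x) :=
  LinearMap.congr_fun h x

theorem comm_pow_app {a b : Module.End K E} (h : a * b = b * a) (k : ℕ) (x : E) :
    a ((b ^ k) x) = (b ^ k) (a x) :=
  LinearMap.congr_fun ((show Commute a b from h).pow_right k).eq x

/-- Anisotropy for the ring `B` from anisotropy for its elements with values in the part of the
primitive cohomology on which `Q i j (Φ) = 0`, if the complementary part is multiplicity free. -/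
theorem noIso_of_simple [CharZero K] [FiniteDimensional K E]
    {S : E →ₗ[K] E →ₗ[K] K} {Φ : Module.End K E} (hΦ : Normal N f L g d s t S Φ)
    (hnd : ∀ i j, ∀ x ∈ prim f g n s t i j,
      (∀ y ∈ prim f g n s t i j, S x ((N ^ i) ((L ^ j) y)) = 0) → x = 0)
    (B : Subring (Module.End K E)) (hB : ∀ u ∈ B, Φ * u = u * Φ)
    (A Q : ℕ → ℕ → K[X]) (hch : ∀ i j, HasCP Φ (prim f g n s t i j) (A i j * Q i j))
    (hA : ∀ i j, Squarefree (A i j)) (hAQ : ∀ i j, IsCoprime (A i j) (Q i j))
    (hinv : ∀ i j, ∀ q : K[X], Irreducible q → q ∣ A i j → SelfDualPoly 1 q)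
    (hQ : ∀ u ∈ B, ∀ i j : ℕ, (∀ x, u x ∈ prim f g n s t i j) → aeval Φ (Q i j) * u = 0 →
      (∀ x y, S (u x) ((N ^ i) ((L ^ j) (u y))) = 0) → u = 0) :
    NoIso B N f L g n s t S := by
  intro u hu i j hx hf hg hiso
  have hmem : ∀ x, u x ∈ prim f g n s t i j := fun x =>
    ⟨hx x, LinearMap.congr_fun hf x, LinearMap.congr_fun hg x⟩
  refine hQ u hu i j hmem ?_ hiso
  obtain ⟨hst, hcp⟩ := hch i j
  let E' := prim f g n s t i j
  let Φ' : Module.End K E' := Φ.restrict hst
  let T : LinearMap.BilinForm K E' :=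
    LinearMap.mk₂ K (fun x y => S (x : E) ((N ^ i) ((L ^ j) (y : E))))
      (fun x x' y => by simp) (fun c x y => by simp) (fun x y y' => by simp)
      (fun c x y => by simp)
  have hT : ∀ x y : E', T x y = S (x : E) ((N ^ i) ((L ^ j) (y : E))) := fun x y => rfl
  have huni : ∀ x y, T (Φ' x) (Φ' y) = T x y := by
    intro x y
    rw [hT, hT]
    have h1 : ((Φ' x : E') : E) = Φ (x : E) := rfl
    have h2 : ((Φ' y : E') : E) = Φ (y : E) := rfl
    rw [h1, h2, ← comm_pow_app hΦ.L, ← comm_pow_app hΦ.N, hΦ.uni]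
  have hndT : ∀ x, (∀ y, T x y = 0) → x = 0 := by
    intro x hx
    exact Subtype.ext (hnd i j x x.2 fun y hy => hx ⟨y, hy⟩)
  -- the part of the image of `u` killed by `A (Φ)`
  have huΦ : ∀ x, Φ (u x) = u (Φ x) := fun x => comm_app (hB u hu) x
  have huq : ∀ (q : K[X]) (x : E), aeval Φ q (u x) = u (aeval Φ q x) := by
    intro q x
    have : Commute (aeval Φ q) u := by
      have h1 : Commute Φ u := hB u hu
      exact (Algebra.commute_of_mem_adjoin_singleton_of_commute
        (aeval_mem_adjoin_singleton K Φ) h1.symm).symm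
    exact LinearMap.congr_fun this.eq x
  let W : Submodule K E' := (LinearMap.range u ⊓ LinearMap.ker (aeval Φ (A i j))).comap E'.subtype
  have hW : W = ⊥ := by
    refine simple_aux T huni hndT hcp (hA i j) (hAQ i j) (hinv i j) W ?_ ?_ ?_
    · rintro x ⟨⟨y, hy⟩, hx2⟩
      refine ⟨⟨Φ y, ?_⟩, ?_⟩
      · rw [← huΦ, hy]; rfl
      · change aeval Φ (A i j) (Φ (x : E)) = 0
        have h1 : aeval Φ (A i j) (x : E) = 0 := hx2
        have : aeval Φ (A i j * X) (x : E) = aeval Φ (X * A i j) (x : E) := by rw [mul_comm]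
        rw [map_mul, map_mul, aeval_X, Module.End.mul_apply, Module.End.mul_apply, h1,
          map_zero] at this
        exact this
    · rintro x ⟨-, hx2⟩
      exact Subtype.ext ((aeval_restrict hst (A i j) x).trans hx2)
    · rintro x ⟨⟨y, hy⟩, -⟩ x' ⟨⟨y', hy'⟩, -⟩
      rw [hT]
      have h1 : u y = (x : E) := hy
      have h2 : u y' = (x' : E) := hy'
      rw [← h1, ← h2]
      exact hiso y y'
  ext x
  rw [Module.End.mul_apply, LinearMap.zero_apply]
  have hAQ0 : aeval Φ (A i j) (aeval Φ (Q i j) (u x)) = 0 := by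
    have h1 := aeval_restrict hst (A i j * Q i j) ⟨u x, hmem x⟩
    rw [← hcp, LinearMap.aeval_self_charpoly] at h1
    rw [← Module.End.mul_apply, ← map_mul, ← hcp]
    exact h1.symm
  have hmemQ : ∀ (q : K[X]) (y : E), y ∈ prim f g n s t i j →
      aeval Φ q y ∈ prim f g n s t i j := by
    intro q y hy
    rw [← aeval_restrict hst q ⟨y, hy⟩]
    exact Submodule.coe_mem _
  have h2 : (⟨aeval Φ (Q i j) (u x), hmemQ _ _ (hmem x)⟩ : E') ∈ W :=
    ⟨⟨aeval Φ (Q i j) x, (huq _ _).symm⟩, hAQ0⟩
  rw [hW, Submodule.mem_bot] at h2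
  exact congrArg Subtype.val h2

end Pool.Agent.H79L
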