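import Pool.Agent.W_MP_a3c811_h79.Lap.Aniso

/-! (a3) Facts on one `sl2`-triple on a finite-dimensional graded space. -/

noncomputable section

namespace Pool.Agent.H79L

open Module

attribute [local instance 100] LieRing.ofAssociativeRing

universe v w

section noncz

variable {K : Type v} [Field K] {E : Type w} [AddCommGroup E] [Module K E]
  {N f : Module.End K E} {s : ℤ → Module.End K E} {P : Finset ℤ}

theorem br_symm (a b : Module.End K E) : br a b = -br b a := by
  unfold br; rw [neg_sub]

/-- the opposite triple -/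
theorem Sl.symm (h : Sl N f s P) : Sl f N (fun p => s (-p)) (P.image fun p => -p) where
  sum := by
    rw [Finset.sum_image (fun a _ b _ hab => by simpa using hab)]
    simpa using h.sum
  idem p := h.idem _
  orth p p' hp := h.orth _ _ (by simpa using hp)
  h p := by
    rw [br_symm, neg_mul, h.h, ← neg_smul]
    push_cast
    rw [neg_neg]
  Ns p := by rw [h.fs]; ring_nf
  fs p := by rw [h.Ns]; ring_nf

end noncz

variable {K : Type v} [Field K] [CharZero K] {E : Type w} [AddCommGroup E] [Module K E]
  [FiniteDimensional K E] {N f : Module.End K E} {s : ℤ → Module.End K E} {P : Finset ℤ}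

omit [CharZero K] [FiniteDimensional K E] in
theorem Sl.wt (h : Sl N f s P) {p : ℤ} {x : E} (hx : s p x = x) : br N f x = (p : K) • x := by
  have := LinearMap.congr_fun (h.h p) x
  rw [Module.End.mul_apply, LinearMap.smul_apply, hx] at this
  exact this

omit [CharZero K] [FiniteDimensional K E] in
theorem Sl.mem_f (h : Sl N f s P) {p : ℤ} {x : E} (hx : s p x = x) : s (p - 2) (f x) = f x := by
  have := LinearMap.congr_fun (h.fs p) x
  rw [Module.End.mul_apply, Module.End.mul_apply, hx] at this
  exact this.symm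

omit [CharZero K] [FiniteDimensional K E] in
theorem Sl.mem_N (h : Sl N f s P) {p : ℤ} {x : E} (hx : s p x = x) : s (p + 2) (N x) = N x := by
  have := LinearMap.congr_fun (h.Ns p) x
  rw [Module.End.mul_apply, Module.End.mul_apply, hx] at this
  exact this.symm

omit [CharZero K] [FiniteDimensional K E] in
theorem Sl.mem_Npow (h : Sl N f s P) {p : ℤ} {x : E} (hx : s p x = x) (k : ℕ) :
    s (p + 2 * k) ((N ^ k) x) = (N ^ k) x := by
  induction k with
  | zero => simpa using hx
  | succ k ih =>
    rw [pow_succ', Module.End.mul_apply]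
    have := h.mem_N ih
    rw [show p + 2 * ((k + 1 : ℕ) : ℤ) = p + 2 * k + 2 by push_cast; ring]
    exact this

omit [CharZero K] [FiniteDimensional K E] in
/-- `N f - f N = p` on position `p` -/
theorem Sl.comm_app (h : Sl N f s P) {p : ℤ} {x : E} (hx : s p x = x) :
    N (f x) = f (N x) + (p : K) • x := by
  have h1 : N (f x) - f (N x) = (p : K) • x := h.wt hx
  rw [← h1]; abel

omit [CharZero K] [FiniteDimensional K E] in
/-- vectors of low position vanish -/
theorem Sl.low (h : Sl N f s P) : ∃ B : ℤ, ∀ p < B, ∀ x, s p x = x → x = 0 := by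
  obtain ⟨B, hB⟩ := P.bddBelow
  refine ⟨B, fun p hp x hx => ?_⟩
  have h1 : (∑ q ∈ P, s q) x = x := by rw [h.sum]; rfl
  rw [LinearMap.sum_apply, Finset.sum_eq_zero] at h1
  · exact h1.symm
  · intro q hq
    have hqp : q ≠ p := by
      rintro rfl
      exact absurd (hB hq) (not_le.2 hp)
    rw [← hx]
    exact LinearMap.congr_fun (h.orth q p hqp) x

omit [FiniteDimensional K E] in
/-- an eigenvalue of `N f` on a part of nonpositive position is a natural number -/
theorem Sl.eig_nat (h : Sl N f s P) : ∀ (p : ℤ), p ≤ 0 → ∀ (x : E), x ≠ 0 → s p x = x →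
    ∀ c : K, N (f x) = c • x → ∃ k : ℕ, c = k := by
  obtain ⟨B, hB⟩ := h.low
  have key : ∀ m : ℕ, ∀ (p : ℤ), p ≤ 0 → p < B + m → ∀ (x : E), x ≠ 0 → s p x = x →
    ∀ c : K, N (f x) = c • x → ∃ k : ℕ, c = k := by
    intro m
    induction m with
    | zero =>
      intro p _ hpB x hx0 hx
      exact absurd (hB p (by simpa using hpB) x hx) hx0
    | succ m ih =>
      intro p hp hpB x hx0 hx c hc
      by_cases hfx : f x = 0
      · refine ⟨0, ?_⟩
        rw [hfx, map_zero] at hc
        simpa using (smul_eq_zero.1 hc.symm).resolve_right hx0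
      · have h1 := h.mem_f hx
        have h2 := h.comm_app h1
        rw [hc, map_smul, ← add_smul] at h2
        obtain ⟨k, hk⟩ := ih (p - 2) (by omega) (by push_cast at hpB; omega) (f x) hfx h1 _ h2
        obtain ⟨r, hr⟩ := Int.eq_ofNat_of_zero_le (show 0 ≤ 2 - p by omega)
        refine ⟨k + r, ?_⟩
        have h3 : ((2 - p : ℤ) : K) = ((r : ℤ) : K) := by rw [hr]
        push_cast at h3 hk ⊢
        rw [← h3, ← hk]
        ring
  intro p hp
  exact key (p - B + 1).toNat p hp (by omega)

omit [FiniteDimensional K E] in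
/-- `f N` is injective on negative positions -/
theorem Sl.fN_inj (h : Sl N f s P) {p : ℤ} (hp : p < 0) {x : E} (hx : s p x = x)
    (hfN : f (N x) = 0) : x = 0 := by
  by_contra hx0
  have h1 := h.comm_app hx
  rw [hfN, zero_add] at h1
  obtain ⟨k, hk⟩ := h.eig_nat p hp.le x hx0 hx _ h1
  have h2 : p = (k : ℤ) := by exact_mod_cast hk
  omega

omit [FiniteDimensional K E] in
/-- a vector killed by `f` has nonpositive position -/
theorem Sl.f_ne (h : Sl N f s P) {p : ℤ} (hp : 0 < p) {x : E} (hx : s p x = x)
    (hf : f x = 0) : x = 0 := by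
  -- use the opposite triple: `x` of position `-p` killed by the raising operator `f`
  have h' := h.symm
  have hx' : (fun p => s (-p)) (-p) x = x := by simpa using hx
  have h1 := h'.comm_app hx'
  -- f (N x) = N (f x) + (-p) x
  rw [hf, map_zero, zero_add] at h1
  by_contra hx0
  obtain ⟨k, hk⟩ := h'.eig_nat (-p) (by omega) x hx0 hx' _ h1
  have h2 : -p = (k : ℤ) := by exact_mod_cast hk
  omega

omit [FiniteDimensional K E] in
theorem Sl.ker_f (h : Sl N f s P) (x : E) (hx : f (N x) = 0) : N x = 0 := by
  have hs : ∀ p, s p (s p x) = s p x := fun p => LinearMap.congr_fun (h.idem p) x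
  have h0 : ∀ p, f (N (s p x)) = 0 := by
    intro p
    have h1 : f * N * s p = s p * (f * N) := by
      rw [mul_assoc, h.Ns, ← mul_assoc, h.fs, add_sub_cancel_right, mul_assoc]
    have h2 := LinearMap.congr_fun h1 x
    simp only [Module.End.mul_apply] at h2
    rw [h2, hx, map_zero]
  have key : ∀ p, N (s p x) = 0 := by
    intro p
    by_cases hp : p < 0
    · rw [h.fN_inj hp (hs p) (h0 p), map_zero]
    · exact h.f_ne (p := p + 2) (by omega) (h.mem_N (hs p)) (h0 p)
  have h1 : x = ∑ p ∈ P, s p x := by
    rw [← LinearMap.sum_apply, h.sum]; rfl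
  rw [h1, map_sum]
  exact Finset.sum_eq_zero fun p _ => key p

omit [FiniteDimensional K E] in
theorem Sl.ker_N (h : Sl N f s P) (x : E) (hx : N (f x) = 0) : f x = 0 := h.symm.ker_f x hx

omit [CharZero K] [FiniteDimensional K E] in
/-- `f N ^ (m + 1) = N ^ m (N f - (m + 1) (p + m))` on position `p` -/
theorem Sl.f_Npow (h : Sl N f s P) {p : ℤ} {x : E} (hx : s p x = x) (m : ℕ) :
    f ((N ^ (m + 1)) x) = (N ^ m) (N (f x) - (((m + 1) * (p + m) : ℤ) : K) • x) := by
  induction m with
  | zero =>
    have := h.comm_app hx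
    simp only [zero_add, pow_one, pow_zero, Module.End.one_apply, Nat.cast_zero, add_zero, one_mul]
    rw [this, add_sub_cancel_right]
  | succ m ih =>
    have h1 := h.comm_app (h.mem_Npow hx (m + 1))
    rw [pow_succ' N (m + 1), Module.End.mul_apply]
    rw [ih] at h1
    have h2 : f (N ((N ^ (m + 1)) x)) = N ((N ^ m) (N (f x) - (((m + 1) * (p + m) : ℤ) : K) • x)) -
        ((p + 2 * ((m + 1 : ℕ) : ℤ) : ℤ) : K) • (N ^ (m + 1)) x := by rw [h1]; abel
    rw [h2, ← Module.End.mul_apply N, ← pow_succ', map_sub, map_sub, map_smul, map_smul, sub_sub,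
      ← add_smul]
    congr 3
    push_cast
    ring

omit [FiniteDimensional K E] in
/-- `N ^ i` is injective on position `-i` -/
theorem Sl.inj (h : Sl N f s P) (i : ℕ) : ∀ k ≤ i, ∀ x : E, s (-(i : ℤ)) x = x → (N ^ k) x = 0 →
    x = 0 := by
  intro k
  induction k with
  | zero => intro _ x _ hx; simpa using hx
  | succ k ih =>
    intro hk x hx hNx
    -- f N^(k+1) x = N^k (N f x + a x) with a > 0
    have h1 := h.f_Npow hx k
    rw [hNx, map_zero] at h1
    have hy : s (-(i : ℤ)) (N (f x)) = N (f x) := by
      have := h.mem_N (h.mem_f hx)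
      rwa [sub_add_cancel] at this
    have h2 := ih (by omega) _ (by rw [map_sub, map_smul, hy, hx]) h1.symm
    by_contra hx0
    have h3 := sub_eq_zero.1 h2
    obtain ⟨r, hr⟩ := h.eig_nat (-(i : ℤ)) (by omega) x hx0 hx _ h3
    have h4 : ((k + 1) * (-(i : ℤ) + k) : ℤ) = (r : ℤ) := by exact_mod_cast hr
    have h5 : ((k : ℤ) + 1) * (-(i : ℤ) + k) < 0 :=
      mul_neg_of_pos_of_neg (by omega) (by omega)
    omega

omit [CharZero K] [FiniteDimensional K E] in
theorem Sl.mem_range (h : Sl N f s P) {p : ℤ} {x : E} :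
    x ∈ LinearMap.range (s p) ↔ s p x = x := by
  constructor
  · rintro ⟨y, rfl⟩
    exact LinearMap.congr_fun (h.idem p) y
  · intro hx
    exact ⟨x, hx⟩

/-- `N ^ i` maps the part of position `-i` bijectively onto the part of position `i`. -/
theorem Sl.bij (h : Sl N f s P) (i : ℕ) :
    Set.BijOn (N ^ i) (LinearMap.range (s (-i))) (LinearMap.range (s i)) := by
  have maps : ∀ {N f : Module.End K E} {s : ℤ → Module.End K E} {P : Finset ℤ}, Sl N f s P →
      ∀ x ∈ LinearMap.range (s (-i)), (N ^ i) x ∈ LinearMap.range (s i) := by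
    intro N f s P h x hx
    rw [h.mem_range] at hx ⊢
    have := h.mem_Npow hx i
    rwa [show -(i : ℤ) + 2 * i = i by ring] at this
  have inj : ∀ {N f : Module.End K E} {s : ℤ → Module.End K E} {P : Finset ℤ}, Sl N f s P →
      ∀ x ∈ LinearMap.range (s (-i)), (N ^ i) x = 0 → x = 0 := by
    intro N f s P h x hx hNx
    rw [h.mem_range] at hx
    exact h.inj i i le_rfl x hx hNx
  have le : ∀ {N f : Module.End K E} {s : ℤ → Module.End K E} {P : Finset ℤ}, Sl N f s P →
      finrank K (LinearMap.range (s (-i))) ≤ finrank K (LinearMap.range (s i)) := by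
    intro N f s P h
    refine LinearMap.finrank_le_finrank_of_injective
      (f := ((N ^ i).domRestrict (LinearMap.range (s (-i)))).codRestrict (LinearMap.range (s i))
        (fun x => maps h x x.2)) ?_
    rw [← LinearMap.ker_eq_bot, LinearMap.ker_eq_bot']
    intro x hx
    have : (N ^ i) (x : E) = 0 := congrArg Subtype.val hx
    exact Subtype.ext (inj h x x.2 this)
  have ge : finrank K (LinearMap.range (s i)) ≤ finrank K (LinearMap.range (s (-i))) := by
    have h1 := le h.symm
    have h2 : s (-(-(i : ℤ))) = s i := by rw [neg_neg]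
    change finrank K (LinearMap.range (s (-(-(i : ℤ))))) ≤ _ at h1
    rwa [h2] at h1
  have heq := le_antisymm (le h) ge
  refine ⟨fun x hx => maps h x hx, ?_, ?_⟩
  · intro x hx y hy hxy
    have h1 : x - y ∈ LinearMap.range (s (-i)) := Submodule.sub_mem _ hx hy
    exact sub_eq_zero.1 (inj h _ h1 (by rw [map_sub]; exact sub_eq_zero.2 hxy))
  · let F := ((N ^ i).domRestrict (LinearMap.range (s (-i)))).codRestrict (LinearMap.range (s i))
        (fun x => maps h x x.2)
    have hF : Function.Injective F := by
      rw [← LinearMap.ker_eq_bot, LinearMap.ker_eq_bot']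
      intro x hx
      have : (N ^ i) (x : E) = 0 := congrArg Subtype.val hx
      exact Subtype.ext (inj h x x.2 this)
    have hF' := (LinearMap.injective_iff_surjective_of_finrank_eq_finrank heq).1 hF
    intro y hy
    obtain ⟨x, hx⟩ := hF' ⟨y, hy⟩
    exact ⟨x, x.2, congrArg Subtype.val hx⟩

/-- An endomorphism which commutes with `N` and with the grading commutes with `f`. -/
theorem Sl.comm_f (h : Sl N f s P) (e : Module.End K E) (heN : e * N = N * e)
    (hes : ∀ p, e * s p = s p * e) : e * f = f * e := by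
  by_contra hne
  set a := br e f with ha
  have ha0 : a ≠ 0 := by
    intro h0
    exact hne (sub_eq_zero.1 h0)
  have heh : e * br N f = br N f * e := by
    refine h.ext_sum fun p => ?_
    rw [mul_assoc, h.h, mul_assoc, hes, ← mul_assoc, h.h, mul_smul_comm, smul_mul_assoc, hes]
  have hNa : br N a = 0 := by
    have h1 : br N a = br (br N e) f + br e (br N f) := H62W.br_br N e f
    have h2 : br N e = 0 := by unfold br; rw [heN, sub_self]
    have h3 : br e (br N f) = 0 := sub_eq_zero.2 heh
    rw [h1, h2, h3, add_zero]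
    unfold br
    simp
  have hha : br (br N f) a = -(2 • a) := by
    have h1 : br (br N f) a = br (br (br N f) e) f + br e (br (br N f) f) := H62W.br_br _ e f
    have h2 : br (br N f) e = 0 := sub_eq_zero.2 heh.symm
    have h3 : br (br N f) f = -(2 • f) := h.hf
    rw [h1, h2, h3]
    have h4 : br (0 : Module.End K E) f = 0 := by unfold br; simp
    rw [h4, zero_add, ha]
    unfold br
    simp only [mul_neg, neg_mul, mul_smul_comm, smul_mul_assoc, smul_sub]
    abel
  have hh0 : br N f ≠ 0 := by
    intro h0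
    rw [h0] at hha
    have h4 : br (0 : Module.End K E) a = 0 := by unfold br; simp
    rw [h4] at hha
    have := H62W.Setup.tf (K := K) (V := E)
    exact ha0 ((nsmul_eq_zero_iff_right two_ne_zero).1 (neg_eq_zero.1 hha.symm))
  have t : IsSl2Triple (br N f) N f :=
    { h_ne_zero := hh0
      lie_e_f := by rw [Ring.lie_def]; rfl
      lie_h_e_nsmul := by rw [Ring.lie_def]; exact h.hN
      lie_h_f_nsmul := by rw [Ring.lie_def]; exact h.hf }
  have Pr : t.HasPrimitiveVectorWith a (-2 : K) :=
    { ne_zero := ha0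
      lie_h := by
        rw [Ring.lie_def]
        refine Eq.trans (b := -(2 • a)) hha ?_
        rw [neg_smul, ← Nat.cast_smul_eq_nsmul K]
        simp
      lie_e := by rw [Ring.lie_def]; exact hNa }
  obtain ⟨m, hm⟩ := Pr.exists_nat
  have : (-2 : ℤ) = (m : ℤ) := by exact_mod_cast hm
  omega

end Pool.Agent.H79L
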