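import Pool.Agent.W_MP_a3c811_h79.Lap.Fam
import Pool.Agent.W_MP_a3c811_h79.Lap.Sl2

/-! The `sl2`-triple on the realisation. -/

noncomputable section

namespace Pool.Agent.H79L

open Polynomial Module Pool.Agent.WeilH_h6 Pool.Agent.WeilH_h6.VarClass Pool.Agent.H62D
  Pool.Agent.H62A

universe u v w

section linear

variable {K : Type v} [Field K] {E : Type w} [AddCommGroup E] [Module K E]
  {N f L g d : Module.End K E} {n : ℤ} {s t : ℤ → Module.End K E} {P D : Finset ℤ}

theorem shift_mul {X Y : Module.End K E} {a b : ℤ} (hX : ∀ p, X * s p = s (p + a) * X)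
    (hY : ∀ p, Y * s p = s (p + b) * Y) (p : ℤ) : X * Y * s p = s (p + (a + b)) * (X * Y) := by
  rw [mul_assoc, hY, ← mul_assoc, hX, mul_assoc, show p + b + a = p + (a + b) by ring]

theorem shift_br {X Y : Module.End K E} {a b : ℤ} (hX : ∀ p, X * s p = s (p + a) * X)
    (hY : ∀ p, Y * s p = s (p + b) * Y) (p : ℤ) : br X Y * s p = s (p + (a + b)) * br X Y := by
  change (X * Y - Y * X) * s p = s (p + (a + b)) * (X * Y - Y * X)
  rw [sub_mul, mul_sub, shift_mul hX hY, shift_mul hY hX, add_comm b a]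

theorem Bi.lap_s (h : Bi N f L g d n s t P D) (p : ℤ) : s p * lap f g d = lap f g d * s p := by
  have hd : ∀ p, d * s p = s (p + 1) * d := h.ds
  have hf : ∀ p, f * s p = s (p + -2) * f := h.sl.fs
  have hg : ∀ p, g * s p = s (p + 0) * g := fun p => by rw [h.gs, add_zero]
  have h1 := shift_br hf (shift_br hg hd)
  have h2 := shift_mul hd h1 p
  have h3 := shift_mul h1 hd p
  change s p * (d * br f (br g d) + br f (br g d) * d) =
    (d * br f (br g d) + br f (br g d) * d) * s p
  rw [add_mul, mul_add, h2, h3]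
  norm_num

end linear

variable {k : Type u} [Field k] {𝒱 : VarClass k} {I : Type} {K : I → Type v} [∀ l, Field (K l)]
  [∀ l, CharZero (K l)] {W : ∀ l, Weil.{u, v, w} 𝒱 (K l)} {C : MComplex W}
  {T : Lefschetz C} {hW : Compatible W} {p q : ℚ[X]}

/-- the projector `π` in the theory `l` -/
abbrev piv (T : Lefschetz C) (hW : Compatible W) (p : ℚ[X]) (l : I) :
    Module.End (K l) (Tot (W l) C.Y) := MA.val (aeval (T.lapA hW) p) l

section comm

theorem piv_comm (x : MA hW C.Y) (hx : x * T.lapA hW = T.lapA hW * x) (l : I)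
    (y : Tot (W l) C.Y) : MA.val x l (piv T hW p l y) = piv T hW p l (MA.val x l y) :=
  LinearMap.congr_fun (congrArg (fun x => MA.val x l) (commute_aeval hx p)) y

theorem piv_N (l : I) (y : Tot (W l) C.Y) : T.N l (piv T hW p l y) = piv T hW p l (T.N l y) :=
  piv_comm (T.nA hW) (T.lap_comm_N hW) l y

theorem piv_f (l : I) (y : Tot (W l) C.Y) : T.f l (piv T hW p l y) = piv T hW p l (T.f l y) :=
  piv_comm (T.fA hW) (T.lap_comm_f hW) l y

theorem piv_d (l : I) (y : Tot (W l) C.Y) : C.d l (piv T hW p l y) = piv T hW p l (C.d l y) :=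
  piv_comm (C.dA hW) (T.lap_comm_d hW) l y

theorem piv_s (l : I) (j : ℤ) (y : Tot (W l) C.Y) : posProj (W l) C.Y C.pos j (piv T hW p l y) =
    piv T hW p l (posProj (W l) C.Y C.pos j y) := by
  refine piv_comm (T := T) (p := p) (hW := hW)
    ⟨fun l => posProj (W l) C.Y C.pos j, motivic_posProj hW j⟩ ?_ l y
  refine MA_ext fun l => ?_
  obtain ⟨D, hD⟩ := T.bi l
  exact hD.lap_s j

end comm

section facts

variable (F : Fitting (T.lapA hW) (aeval (T.lapA hW) p) (aeval (T.lapA hW) q))
  (h0 : ∀ l, (C.d l : Module.End (K l) (Tot (W l) C.Y)) * piv T hW p l = 0)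

include h0 in
theorem d_piv (l : I) (y : Tot (W l) C.Y) : C.d l (piv T hW p l y) = 0 :=
  LinearMap.congr_fun (h0 l) y

include h0 in
theorem piv_range (l : I) {y : Tot (W l) C.Y} (hy : y ∈ LinearMap.range (C.d l)) :
    piv T hW p l y = 0 := by
  obtain ⟨z, rfl⟩ := hy
  rw [← piv_d, d_piv h0]

include F in
/-- a cocycle differs from its projection by a coboundary -/
theorem sub_piv_mem (l : I) {x : Tot (W l) C.Y} (hx : C.d l x = 0) :
    x - piv T hW p l x ∈ LinearMap.range (C.d l) := by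
  have e1 : MA.val (aeval (T.lapA hW) q) l (MA.val (T.lapA hW) l x) = x - piv T hW p l x :=
    LinearMap.congr_fun (congrArg (fun x => MA.val x l) F.inv') x
  have e2 : MA.val (T.lapA hW) l x = C.d l (MA.val (T.d3A hW) l x) := by
    have : MA.val (T.lapA hW) l x = C.d l (MA.val (T.d3A hW) l x) +
      MA.val (T.d3A hW) l (C.d l x) := rfl
    rw [this, hx, map_zero, add_zero]
  have e3 := LinearMap.congr_fun (congrArg (fun x => MA.val x l)
    (commute_aeval (T.lap_comm_d hW) q)) (MA.val (T.d3A hW) l x)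
  rw [← e1, e2]
  exact ⟨_, e3⟩

variable (R : Realisation C)

theorem u_range (l : I) {y : Tot (W l) C.Y} (hy : y ∈ LinearMap.range (C.d l)) :
    R.u l y = 0 := by
  obtain ⟨z, rfl⟩ := hy
  rw [R.u_ker l _ (C.d_sq' l z), R.e_chain.comm']
  exact ⟨_, rfl⟩

include F in
theorem u_piv (l : I) {x : Tot (W l) C.Y} (hx : C.d l x = 0) :
    R.u l (piv T hW p l x) = R.u l x := by
  have h1 := u_range R l (sub_piv_mem F l hx)
  rw [map_sub, sub_eq_zero] at h1
  exact h1.symm

variable {R} (hR : T.Compat R)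

include F h0 hR in
/-- The operator `f π` descends to the realisation. -/
theorem exists_desc_f (l : I) : ∃ θ : Module.End (K l) (R.V l),
    Desc R l (T.f l ∘ₗ piv T hW p l) θ := by
  obtain ⟨D, hD⟩ := T.bi l
  set e' : Module.End (K l) (Tot (W l) C.Y) := piv T hW p l * R.e l * piv T hW p l with he'
  have e'app : ∀ x, e' x = piv T hW p l (R.e l (piv T hW p l x)) := fun x => rfl
  have c1 : e' * T.N l = T.N l * e' := by
    refine LinearMap.ext fun x => ?_
    change piv T hW p l (R.e l (piv T hW p l (T.N l x))) =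
      T.N l (piv T hW p l (R.e l (piv T hW p l x)))
    have h1 := piv_range h0 l (hR.2 l (piv T hW p l x) (d_piv h0 l x))
    rw [map_sub, sub_eq_zero] at h1
    rw [← piv_N (T := T) (p := p) (hW := hW) l x, piv_N (T := T) (p := p) (hW := hW) l
      (R.e l (piv T hW p l x))]
    exact h1
  have c2 : ∀ j, e' * posProj (W l) C.Y C.pos j = posProj (W l) C.Y C.pos j * e' := by
    intro j
    refine LinearMap.ext fun x => ?_
    change piv T hW p l (R.e l (piv T hW p l (posProj (W l) C.Y C.pos j x))) =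
      posProj (W l) C.Y C.pos j (piv T hW p l (R.e l (piv T hW p l x)))
    rw [← piv_s (T := T) (p := p) (hW := hW) l j x, ← e_posProj,
      piv_s (T := T) (p := p) (hW := hW) l j (R.e l (piv T hW p l x))]
  have c3 : e' * T.f l = T.f l * e' := hD.sl.comm_f e' c1 c2
  have hd : ∀ x, C.d l ((T.f l ∘ₗ piv T hW p l) x) = 0 := by
    intro x
    rw [LinearMap.comp_apply, piv_f, d_piv h0]
  obtain ⟨θ, hθ⟩ := exists_theta (C.d l) (T.f l ∘ₗ piv T hW p l) (R.u l) (R.u_surj l)
    (fun x _ => hd x) (by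
      intro x hx hu
      rw [R.u_ker l _ (hd x)]
      rw [R.u_ker l _ hx] at hu
      have h1 : piv T hW p l (R.e l (piv T hW p l x)) = 0 := by
        have h2 := sub_piv_mem F l hx
        obtain ⟨z, hz⟩ := h2
        have h3 : R.e l (x - piv T hW p l x) ∈ LinearMap.range (C.d l) := by
          rw [← hz, R.e_chain.comm']
          exact ⟨_, rfl⟩
        have h4 := piv_range h0 l h3
        rw [map_sub, map_sub, piv_range h0 l hu, zero_sub, neg_eq_zero] at h4
        exact h4
      have h5 : piv T hW p l (R.e l ((T.f l ∘ₗ piv T hW p l) x)) = 0 := by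
        have h6 := LinearMap.congr_fun c3 x
        change piv T hW p l (R.e l (piv T hW p l (T.f l x))) =
          T.f l (piv T hW p l (R.e l (piv T hW p l x))) at h6
        rw [h1, map_zero, ← piv_f] at h6
        exact h6
      have h7 : C.d l (R.e l ((T.f l ∘ₗ piv T hW p l) x)) = 0 := by
        rw [← R.e_chain.comm', hd, map_zero]
      have h8 := sub_piv_mem F l h7
      rw [h5, sub_zero] at h8
      exact h8)
  exact ⟨θ, fun x _ => hd x, hθ⟩

include F hR in
/-- the `sl2`-triple on the realisation -/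
theorem sl_real (l : I) {θ : Module.End (K l) (R.V l)}
    (hθ : Desc R l (T.f l ∘ₗ piv T hW p l) θ) :
    Sl (R.ν l) θ (R.ppos l) (Finset.univ.image C.pos) := by
  obtain ⟨D, hD⟩ := T.bi l
  have hNN : R.N l = T.N l := congrFun hR.1 l
  refine ⟨ppos_sum R l, ppos_idem R l, ppos_orth R l, fun j => ?_, fun j => ?_, fun j => ?_⟩
  · refine LinearMap.ext fun y => ?_
    obtain ⟨x, hx, rfl⟩ := R.u_surj l y
    have hs := R.desc_ppos l j
    have h1 : R.ppos l j (R.u l x) = R.u l (posProj (W l) C.Y C.pos j x) := (hs.2 x hx).symm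
    set z := posProj (W l) C.Y C.pos j x with hz
    have dz : C.d l z = 0 := hs.1 x hx
    have dNz : C.d l (R.N l z) = 0 := (Desc.nu R l).1 z dz
    have h2 : θ (R.u l z) = R.u l (T.f l (piv T hW p l z)) := (hθ.2 z dz).symm
    have h3 : R.ν l (θ (R.u l z)) = R.u l (R.N l (T.f l (piv T hW p l z))) := by
      rw [h2]
      exact ((Desc.nu R l).2 _ (hθ.1 z dz)).symm
    have h4 : θ (R.ν l (R.u l z)) = R.u l (T.f l (piv T hW p l (R.N l z))) := by
      rw [← (Desc.nu R l).2 z dz]
      exact (hθ.2 _ dNz).symm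
    have h5 : T.N l (T.f l (piv T hW p l z)) - T.f l (T.N l (piv T hW p l z)) =
        (j : K l) • piv T hW p l z := by
      have h6 := T.triple_N l j (piv T hW p l z) (by
        rw [hz, ← piv_s]
        exact posProj_mem _ _ _ _ _)
      exact h6
    change R.ν l (θ (R.ppos l j (R.u l x))) - θ (R.ν l (R.ppos l j (R.u l x))) =
      (j : K l) • R.ppos l j (R.u l x)
    rw [h1, h3, h4, ← map_sub, hNN, ← piv_N, h5, map_smul, u_piv F R l dz]
  · refine comm_of_comp R (Desc.nu R l) (R.desc_ppos l j) (R.desc_ppos l (j + 2)) (Desc.nu R l) ?_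
    exact comp_posProj (W l) C.Y C.pos C.tw (R.N_chain.bidegree l) j
  · refine comm_of_comp R hθ (R.desc_ppos l j) (R.desc_ppos l (j - 2)) hθ ?_
    refine LinearMap.ext fun x => ?_
    have h1 := LinearMap.congr_fun (comp_posProj (W l) C.Y C.pos C.tw (T.bidegree_f l) j)
      (piv T hW p l x)
    change T.f l (posProj (W l) C.Y C.pos j (piv T hW p l x)) =
      posProj (W l) C.Y C.pos (j - 2) (T.f l (piv T hW p l x)) at h1
    change T.f l (piv T hW p l (posProj (W l) C.Y C.pos j x)) =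
      posProj (W l) C.Y C.pos (j - 2) (T.f l (piv T hW p l x))
    rw [← piv_s, h1]

include F h0 hR in
/-- Weight monodromy. -/
theorem wm_real (l : I) : R.WeightMonodromy l := by
  obtain ⟨θ, hθ⟩ := exists_desc_f F h0 hR l
  have hs := sl_real F hR l hθ
  intro w i
  have hb := hs.bij i
  have hc : ∀ y, R.ν l (R.pdeg l w y) = R.pdeg l w (R.ν l y) := by
    have h1 := comm_of_comp R (Desc.nu R l) (R.desc_pdeg l w) (R.desc_pdeg l w) (Desc.nu R l) (by
      have := comp_degProj (W l) C.Y C.pos C.tw (R.N_chain.bidegree l) w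
      rwa [add_zero] at this)
    exact fun y => LinearMap.congr_fun h1 y
  have hci : ∀ (i : ℕ) y, (R.ν l ^ i) (R.pdeg l w y) = R.pdeg l w ((R.ν l ^ i) y) := by
    intro i
    induction i with
    | zero => intro y; rfl
    | succ i ih =>
      intro y
      rw [pow_succ', Module.End.mul_apply, Module.End.mul_apply, ih, hc]
  rw [← R.range_pgr, ← R.range_pgr]
  have hgs : ∀ j, R.pdeg l w * R.ppos l j = R.ppos l j * R.pdeg l w := fun j =>
    comm_of_comp R (R.desc_pdeg l w) (R.desc_ppos l j) (R.desc_ppos l j) (R.desc_pdeg l w)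
      (degProj_comm_posProj _ _ _ _ _ _)
  have sub : ∀ j, LinearMap.range (R.pdeg l w * R.ppos l j) ≤ LinearMap.range (R.ppos l j) := by
    rintro j _ ⟨y, rfl⟩
    rw [hgs]
    exact ⟨_, rfl⟩
  have hpp : ∀ y, R.pdeg l w (R.pdeg l w y) = R.pdeg l w y := fun y =>
    LinearMap.congr_fun (pdeg_idem R l w) y
  refine ⟨?_, hb.injOn.mono (sub _), ?_⟩
  · rintro _ ⟨y, rfl⟩
    obtain ⟨z, hz⟩ := hb.mapsTo (show R.ppos l (-i) y ∈ (LinearMap.range (R.ppos l (-i)) :
      Set (R.V l)) from ⟨y, rfl⟩)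
    refine ⟨z, ?_⟩
    rw [Module.End.mul_apply, hz, ← hci]
    rfl
  · rintro _ ⟨y, rfl⟩
    obtain ⟨_, ⟨z, rfl⟩, hz⟩ := hb.surjOn (show R.ppos l i y ∈ (LinearMap.range (R.ppos l i) :
      Set (R.V l)) from ⟨y, rfl⟩)
    refine ⟨R.pdeg l w (R.ppos l (-i) z), ⟨z, rfl⟩, ?_⟩
    rw [hci, hz]
    rfl

end facts

end Pool.Agent.H79L
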