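import Pool.Agent.W_MP_a3c811_h79.Lap.Sl2
import Pool.Agent.W_MP_b4801b_h67.Sqf
import Pool.Agent.W_MP_b4801b_h67.Rel

/-! (a4) Anisotropy from simple eigenvalues. -/

noncomputable section

namespace Pool.Agent.H79L

open Module Polynomial Pool.Agent.B4801b

universe v w

variable {K : Type v} [Field K] {E : Type w} [AddCommGroup E] [Module K E]

section form

theorem selfDual_of_irred {A : K[X]} (hA0 : A ≠ 0)
    (h : ∀ g : K[X], Irreducible g → g ∣ A → SelfDualPoly 1 g) : SelfDualPoly 1 A := by
  intro α hα
  have key : ∀ n : ℕ, ∀ m : K[X], m.natDegree ≤ n → m ∣ A → aeval α m = 0 →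
      aeval (algebraMap K (AlgebraicClosure K) 1 / α) m = 0 := by
    intro n
    induction n with
    | zero =>
      intro m hm hmA hmα
      have hm0 : m ≠ 0 := fun h0 => hA0 (by rw [h0] at hmA; exact zero_dvd_iff.1 hmA)
      rw [eq_C_of_natDegree_eq_zero (Nat.le_zero.mp hm), aeval_C] at hmα
      rw [eq_C_of_natDegree_eq_zero (Nat.le_zero.mp hm)] at hm0
      exact absurd (by rw [(map_eq_zero _).1 hmα, C_0]) hm0
    | succ n ih =>
      intro m hm hmA hmα
      have hm0 : m ≠ 0 := fun h0 => hA0 (by rw [h0] at hmA; exact zero_dvd_iff.1 hmA)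
      by_cases hu : IsUnit m
      · obtain ⟨a, ha, rfl⟩ := Polynomial.isUnit_iff.mp hu
        rw [aeval_C] at hmα
        exact absurd ((map_eq_zero _).1 hmα) ha.ne_zero
      · obtain ⟨g, hg, m', rfl⟩ := WfDvdMonoid.exists_irreducible_factor hu hm0
        rw [map_mul] at hmα ⊢
        rcases mul_eq_zero.1 hmα with h1 | h1
        · rw [h g hg ((Dvd.intro m' rfl).trans hmA) α h1, zero_mul]
        · have hm'0 : m' ≠ 0 := right_ne_zero_of_mul hm0
          have := natDegree_mul hg.ne_zero hm'0
          have := hg.natDegree_pos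
          rw [ih m' (by omega) ((Dvd.intro_left g rfl).trans hmA) h1, mul_zero]
  exact key _ A le_rfl dvd_rfl hα

variable [FiniteDimensional K E]

/-- A vector space with an operator `Φ` which is unitary for a nondegenerate form `T`; if the
characteristic polynomial is `A B` with `A` squarefree and prime to `B`, and the irreducible factors
of `A` are self dual, then a stable isotropic subspace killed by `A(Φ)` is zero. -/
theorem simple_aux [Infinite K] {Φ : Module.End K E} (T : LinearMap.BilinForm K E)
    (uni : ∀ x y, T (Φ x) (Φ y) = T x y) (nd : ∀ x, (∀ y, T x y = 0) → x = 0)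
    {A B : K[X]} (hch : Φ.charpoly = A * B) (hA : Squarefree A) (hAB : IsCoprime A B)
    (hinv : ∀ g : K[X], Irreducible g → g ∣ A → SelfDualPoly 1 g) (W : Submodule K E)
    (hW : ∀ x ∈ W, Φ x ∈ W) (hWA : ∀ x ∈ W, aeval Φ A x = 0)
    (hiso : ∀ x ∈ W, ∀ y ∈ W, T x y = 0) : W = ⊥ := by
  have hA0 : A ≠ 0 := hA.ne_zero
  -- `Φ` is injective
  have hΦ : ∀ x, Φ x = 0 → x = 0 := by
    intro x hx
    apply nd
    intro y
    rw [← uni, hx, map_zero, LinearMap.zero_apply]
  have hB0 : B.eval 0 ≠ 0 := by
    intro h0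
    have hX : X ∣ B := by rwa [X_dvd_iff, coeff_zero_eq_eval_zero]
    obtain ⟨x, hx0, hx⟩ := exists_ker_ne_zero Φ X irreducible_X (by
      rw [hch]; exact hX.trans (Dvd.intro_left A rfl))
    rw [aeval_X] at hx
    exact hx0 (hΦ x hx)
  have hcomm : ∀ (q : K[X]) (x : E), aeval Φ q (Φ x) = Φ (aeval Φ q x) := by
    intro q x
    have : aeval Φ (q * X) x = aeval Φ (X * q) x := by rw [mul_comm]
    rwa [map_mul, map_mul, aeval_X, Module.End.mul_apply, Module.End.mul_apply] at this
  let V' := LinearMap.ker (aeval Φ A)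
  have hV' : ∀ x ∈ V', Φ x ∈ V' := by
    intro x hx
    rw [LinearMap.mem_ker] at hx ⊢
    rw [hcomm, hx, map_zero]
  let Φ' := Φ.restrict hV'
  have hΦ'q : ∀ (q : K[X]) (x : V'), ((aeval Φ' q x : V') : E) = aeval Φ q (x : E) := by
    intro q x
    induction q using Polynomial.induction_on' with
    | add p q hp hq => simp only [map_add, LinearMap.add_apply, Submodule.coe_add, hp, hq]
    | monomial n a =>
      simp only [aeval_monomial, Module.End.mul_apply, Module.algebraMap_end_apply,
        Submodule.coe_smul]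
      congr 1
      induction n with
      | zero => simp
      | succ n ih =>
        rw [pow_succ', pow_succ', Module.End.mul_apply, Module.End.mul_apply, ← ih]
        rfl
  have hdvd : Φ'.charpoly ∣ A * B := by
    rw [← hch, charpoly_mul V' Φ hV']
    exact dvd_mul_right _ _
  have hcop : IsCoprime Φ'.charpoly B := by
    refine isCoprime_of_irreducible_dvd
      (fun h0 => (LinearMap.charpoly_monic Φ').ne_zero h0.1) ?_
    intro g hg hgc hgB
    obtain ⟨x, hx0, hx⟩ := exists_ker_ne_zero Φ' g hg hgc
    obtain ⟨a, b, hab⟩ := (hAB.of_isCoprime_of_dvd_right hgB)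
    have h1 : (x : E) = 0 := by
      have h2 := congrArg (fun q => aeval Φ q (x : E)) hab
      simp only [map_add, map_mul, map_one, LinearMap.add_apply, Module.End.mul_apply,
        Module.End.one_apply] at h2
      have h3 : aeval Φ A (x : E) = 0 := x.2
      have h4 : aeval Φ g (x : E) = 0 := by rw [← hΦ'q, hx]; rfl
      rw [h3, h4, map_zero, map_zero, add_zero] at h2
      exact h2.symm
    exact hx0 (Subtype.ext h1)
  have hdvdA : Φ'.charpoly ∣ A := hcop.dvd_of_dvd_mul_right hdvd
  have hsq : Squarefree Φ'.charpoly := hA.squarefree_of_dvd hdvdA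
  -- the form on `V'`
  let T' : LinearMap.BilinForm K V' := T.restrict V'
  have hT' : ∀ x y : V', T' x y = T (x : E) (y : E) := fun x y => rfl
  have hnd' : ∀ x : V', (∀ y, T' x y = 0) → x = 0 := by
    intro x hx
    apply Subtype.ext
    apply nd
    intro y
    obtain ⟨a, b, hab⟩ := id hAB
    have h2 := congrArg (fun q => aeval Φ q y) hab
    simp only [map_add, map_mul, map_one, LinearMap.add_apply, Module.End.mul_apply,
      Module.End.one_apply] at h2
    have hAB0 : aeval Φ (A * B) y = 0 := by
      rw [← hch, LinearMap.aeval_self_charpoly, LinearMap.zero_apply]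
    have hm : ∀ p q : K[X], aeval Φ p (aeval Φ q y) = aeval Φ q (aeval Φ p y) := by
      intro p q
      rw [← Module.End.mul_apply, ← map_mul, mul_comm, map_mul, Module.End.mul_apply]
    have h3 : aeval Φ A (aeval Φ b (aeval Φ B y)) = 0 := by
      have : aeval Φ (A * (b * B)) y = 0 := by
        rw [show A * (b * B) = b * (A * B) by ring, map_mul, Module.End.mul_apply, hAB0, map_zero]
      simpa [map_mul, Module.End.mul_apply] using this
    have h4 : aeval Φ B (aeval Φ a (aeval Φ A y)) = 0 := by
      have : aeval Φ (B * (a * A)) y = 0 := by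
        rw [show B * (a * A) = a * (A * B) by ring, map_mul, Module.End.mul_apply, hAB0, map_zero]
      simpa [map_mul, Module.End.mul_apply] using this
    rw [← h2, map_add]
    have h5 : T (x : E) (aeval Φ a (aeval Φ A y)) = 0 :=
      ortho_of_coprime T Φ 1 one_ne_zero (fun x y => by rw [one_mul]; exact uni x y) A B
        (selfDual_of_irred hA0 hinv) hAB hB0 _ _ x.2 h4
    have h6 : T (x : E) (aeval Φ b (aeval Φ B y)) = 0 := hx ⟨_, h3⟩
    rw [h5, h6, add_zero]
  let W' : Submodule K V' := W.comap V'.subtype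
  have hWV : W ≤ V' := fun x hx => hWA x hx
  have hW'0 : W' = ⊥ := by
    refine eq_bot_of_isotropic T' hnd' Φ' 1 one_ne_zero
      (fun x y => by rw [one_mul]; exact uni x y) (∅ : Set (Module.End K V'))
      (fun g hg hgd => hinv g hg (hgd.trans hdvdA))
      (fun g hg U hU _ hUg => irred_of_squarefree Φ' hsq g hg U hU hUg)
      (by simp) W' (fun x hx => hW _ hx) (by simp) (fun x hx y hy => hiso _ hx _ hy)
  rw [Submodule.eq_bot_iff]
  intro x hx
  have h1 : (⟨x, hWV hx⟩ : V') ∈ W' := hx
  rw [hW'0, Submodule.mem_bot] at h1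
  exact congrArg Subtype.val h1

end form

end Pool.Agent.H79L
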